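import Mathlib

set_option autoImplicit false

namespace KAvoid

open Finset

variable {F : Type} [Field F] [Fintype F] [DecidableEq F]

/-- coordinate form of: there is a point set of size `m` in the plane over `F` that no line meets
in exactly `k` points. `P` is the affine part, `A` the set of slopes (points at infinity), `o` is
`1` if the vertical point at infinity is in the set and `0` otherwise. -/
def AvoidC (F : Type) [Field F] [Fintype F] [DecidableEq F] (k m : ℕ) : Prop :=
  ∃ (P : Finset (F × F)) (A : Finset F) (o : ℕ), o ≤ 1 ∧ P.card + A.card + o = m ∧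
    (∀ a b : F, (univ.filter (fun x : F => (x, a * x + b) ∈ P)).card + (if a ∈ A then 1 else 0) ≠ k) ∧
    (∀ x : F, (univ.filter (fun y : F => (x, y) ∈ P)).card + o ≠ k) ∧
    A.card + o ≠ k

/-- the three kinds of points as a sum type -/
abbrev Pt (F : Type) := (F × F) ⊕ (F ⊕ Unit)

/-- homogeneous coordinates -/
def hc (F : Type) [Field F] : Pt F → (Fin 3 → F)
  | Sum.inl (x, y) => ![x, y, 1]
  | Sum.inr (Sum.inl a) => ![1, a, 0]
  | Sum.inr (Sum.inr _) => ![0, 1, 0]

omit [Fintype F] [DecidableEq F] in
lemma hc_ne (p : Pt F) : hc F p ≠ 0 := by
  rcases p with ⟨x, y⟩ | a | u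
  · intro h
    have := congrFun h 2
    simp [hc] at this
  · intro h
    have := congrFun h 0
    simp [hc] at this
  · intro h
    have := congrFun h 1
    simp [hc] at this

noncomputable def toProj (F : Type) [Field F] (p : Pt F) : Projectivization F (Fin 3 → F) :=
  Projectivization.mk F (hc F p) (hc_ne p)

omit [Fintype F] [DecidableEq F] in
lemma toProj_injective : Function.Injective (toProj F) := by
  intro p p' h
  unfold toProj at h
  rw [Projectivization.mk_eq_mk_iff'] at h
  obtain ⟨c, hc'⟩ := h
  have h0 := congrFun hc' 0
  have h1 := congrFun hc' 1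
  have h2 := congrFun hc' 2
  rcases p with ⟨x, y⟩ | a | u <;> rcases p' with ⟨x', y'⟩ | a' | u' <;>
    simp [hc] at h0 h1 h2 ⊢
  all_goals first
    | (subst h2; simp at h0 h1; exact ⟨h0.symm, h1.symm⟩)
    | (subst h0; simpa using h1.symm)
    | (rw [h2] at h0; simp at h0; done)
    | (rw [h2] at h1; simp at h1)

omit [Fintype F] [DecidableEq F] in
/-- incidence with a line, in terms of homogeneous coordinates -/
lemma inc_iff (p : Pt F) (ℓ : Projectivization F (Fin 3 → F)) :
    ∑ i, (toProj F p).rep i * ℓ.rep i = 0 ↔ ∑ i, hc F p i * ℓ.rep i = 0 := by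
  obtain ⟨c, hc'⟩ := Projectivization.exists_smul_eq_mk_rep F (hc F p) (hc_ne p)
  have h1 : (toProj F p).rep = (c : F) • hc F p := by
    unfold toProj
    rw [← hc']
    rfl
  rw [h1]
  have : ∑ i, ((c : F) • hc F p) i * ℓ.rep i = (c : F) * ∑ i, hc F p i * ℓ.rep i := by
    rw [Finset.mul_sum]
    apply Finset.sum_congr rfl
    intro i _
    simp [mul_assoc]
  rw [this]
  constructor
  · intro h
    rcases mul_eq_zero.mp h with h | h
    · exact absurd h c.ne_zero
    · exact h
  · intro h
    rw [h, mul_zero]

/-- transfer from coordinates to the projective plane -/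
theorem of_avoidC {k m : ℕ} (h : AvoidC F k m) :
    ∃ S : Set (Projectivization F (Fin 3 → F)), S.ncard = m ∧
      ∀ ℓ : Projectivization F (Fin 3 → F),
        {p : Projectivization F (Fin 3 → F) |
          p ∈ S ∧ ∑ i, p.rep i * ℓ.rep i = 0}.ncard ≠ k := by
  classical
  obtain ⟨P, A, o, ho, hm, h1, h2, h3⟩ := h
  -- the finset in Pt F
  set U : Finset Unit := if o = 1 then univ else ∅ with hU
  have hUcard : U.card = o := by
    rw [hU]
    split_ifs with h
    · simp [h]
    · simp; omega
  set S' : Finset (Pt F) := P.disjSum (A.disjSum U) with hS'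
  have hS'card : S'.card = m := by
    rw [hS', card_disjSum, card_disjSum, hUcard, ← hm]; ring
  refine ⟨toProj F '' (S' : Set (Pt F)), ?_, ?_⟩
  · rw [Set.ncard_image_of_injective _ toProj_injective, Set.ncard_coe_finset, hS'card]
  · intro ℓ
    have key : {p : Projectivization F (Fin 3 → F) |
          p ∈ toProj F '' (S' : Set (Pt F)) ∧ ∑ i, p.rep i * ℓ.rep i = 0} =
        toProj F '' ((S'.filter (fun p => ∑ i, hc F p i * ℓ.rep i = 0) : Finset (Pt F)) : Set (Pt F)) := by
      ext p
      simp only [Set.mem_ofPred_eq, Set.mem_image, Finset.mem_coe, Finset.mem_filter]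
      constructor
      · rintro ⟨⟨s, hs, rfl⟩, hp⟩
        exact ⟨s, ⟨hs, (inc_iff s ℓ).mp hp⟩, rfl⟩
      · rintro ⟨s, ⟨hs, hp⟩, rfl⟩
        exact ⟨⟨s, hs, rfl⟩, (inc_iff s ℓ).mpr hp⟩
    rw [key, Set.ncard_image_of_injective _ toProj_injective, Set.ncard_coe_finset]
    have hsplit : (S'.filter (fun p => ∑ i, hc F p i * ℓ.rep i = 0)).card =
        (P.filter (fun p => p.1 * ℓ.rep 0 + p.2 * ℓ.rep 1 + ℓ.rep 2 = 0)).card +
        (A.filter (fun a => ℓ.rep 0 + a * ℓ.rep 1 = 0)).card +
        (U.filter (fun _ => ℓ.rep 1 = 0)).card := by
      have : S'.filter (fun p => ∑ i, hc F p i * ℓ.rep i = 0) =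
          (P.filter (fun p => p.1 * ℓ.rep 0 + p.2 * ℓ.rep 1 + ℓ.rep 2 = 0)).disjSum
          ((A.filter (fun a => ℓ.rep 0 + a * ℓ.rep 1 = 0)).disjSum
          (U.filter (fun _ => ℓ.rep 1 = 0))) := by
        ext p
        rcases p with ⟨x, y⟩ | a | u
        · simp [hS', hc, Fin.sum_univ_three]
        · simp [hS', hc, Fin.sum_univ_three]
        · by_cases hz : ℓ.rep 1 = 0
          · simp [hS', hc, Fin.sum_univ_three, hz]
          · simp [hS', hc, Fin.sum_univ_three, hz]
      rw [this, card_disjSum, card_disjSum]; ring
    rw [hsplit]
    have hne : ℓ.rep ≠ 0 := ℓ.rep_nonzero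
    set α := ℓ.rep 0 with hα
    set β := ℓ.rep 1 with hβ
    set γ := ℓ.rep 2 with hγ
    by_cases hb : β = 0
    · have hUf : (U.filter (fun _ => β = 0)).card = o := by
        rw [← hUcard]
        congr 1
        apply Finset.filter_true_of_mem
        intro _ _; exact hb
      rw [hUf]
      by_cases ha : α = 0
      · -- line at infinity
        have hg : γ ≠ 0 := by
          intro hg
          apply hne
          funext i
          fin_cases i
          · exact ha
          · exact hb
          · exact hg
        have e1 : P.filter (fun p => p.1 * α + p.2 * β + γ = 0) = ∅ := by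
          apply Finset.filter_false_of_mem
          intro p _
          rw [ha, hb]; simpa using hg
        have e2 : A.filter (fun a => α + a * β = 0) = A := by
          apply Finset.filter_true_of_mem
          intro p _
          rw [ha, hb]; simp
        rw [e1, e2]
        simpa using h3
      · -- vertical line
        have e2 : A.filter (fun a => α + a * β = 0) = ∅ := by
          apply Finset.filter_false_of_mem
          intro p _
          rw [hb]; simpa using ha
        have e1 : (P.filter (fun p => p.1 * α + p.2 * β + γ = 0)).card =
            (univ.filter (fun y : F => (-γ / α, y) ∈ P)).card := by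
          symm
          apply Finset.card_bij (fun y _ => ((-γ / α, y) : F × F))
          · intro y hy
            simp only [Finset.mem_filter, Finset.mem_univ, true_and] at hy ⊢
            refine ⟨hy, ?_⟩
            rw [hb]; field_simp; ring
          · intro y _ y' _ h
            simpa using h
          · rintro ⟨x, y⟩ hxy
            simp only [Finset.mem_filter] at hxy
            obtain ⟨hP, hxy⟩ := hxy
            rw [hb] at hxy
            have hx : x = -γ / α := by
              field_simp
              linear_combination hxy
            refine ⟨y, ?_, ?_⟩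
            · simp only [Finset.mem_filter, Finset.mem_univ, true_and]
              rw [← hx]; exact hP
            · rw [← hx]
        rw [e1, e2]
        simpa using h2 (-γ / α)
    · -- nonvertical line
      have hUf : (U.filter (fun _ => β = 0)).card = 0 := by
        rw [Finset.card_eq_zero]
        apply Finset.filter_false_of_mem
        intro _ _; exact hb
      have e2 : (A.filter (fun a => α + a * β = 0)).card = if (-α / β) ∈ A then 1 else 0 := by
        have : A.filter (fun a => α + a * β = 0) = A.filter (fun a => a = -α / β) := by
          apply Finset.filter_congr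
          intro a _
          rw [eq_div_iff hb]
          constructor
          · intro h; linear_combination h
          · intro h; linear_combination h
        rw [this, Finset.filter_eq']
        split_ifs <;> simp
      have e1 : (P.filter (fun p => p.1 * α + p.2 * β + γ = 0)).card =
            (univ.filter (fun x : F => (x, (-α / β) * x + (-γ / β)) ∈ P)).card := by
        symm
        apply Finset.card_bij (fun x _ => ((x, (-α / β) * x + (-γ / β)) : F × F))
        · intro x hx
          simp only [Finset.mem_filter, Finset.mem_univ, true_and] at hx ⊢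
          refine ⟨hx, ?_⟩
          field_simp; ring
        · intro y _ y' _ h
          simp only [Prod.mk.injEq] at h
          exact h.1
        · rintro ⟨x, y⟩ hxy
          simp only [Finset.mem_filter] at hxy
          obtain ⟨hP, hxy⟩ := hxy
          have hy : y = (-α / β) * x + (-γ / β) := by
            field_simp
            linear_combination hxy
          refine ⟨x, ?_, ?_⟩
          · simp only [Finset.mem_filter, Finset.mem_univ, true_and]
            rw [← hy]; exact hP
          · rw [← hy]
      rw [hUf, e1, e2]
      simpa using h1 (-α / β) (-γ / β)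

end KAvoid
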