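import Pool.Agent.KAvoid.Exist

set_option autoImplicit false

namespace KAvoid

open Finset

lemma alt_bound (a b j : ℕ) : |∑ i ∈ Ico a b, (-1 : ℤ) ^ (i + j)| ≤ 1 := by
  by_cases hab : a ≤ b
  · simp_rw [pow_add]
    rw [← sum_mul, abs_mul, abs_pow, abs_neg, abs_one, one_pow, mul_one,
      sum_Ico_eq_sub _ hab, neg_one_geom_sum, neg_one_geom_sum]
    split_ifs <;> simp
  · rw [Ico_eq_empty (by omega)]
    simp

section

variable {F : Type} [Field F] [Fintype F] [DecidableEq F]

lemma ch_swap (x y : F) : ch (x - y) = ch (-1 : F) * ch (y - x) := by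
  rw [← ch_mul]; congr 1; ring

lemma ch_neg_one : ch (-1 : F) = 1 ∨ ch (-1 : F) = -1 := ch_cases (by simp)

end

/-- the sign pattern for the block design -/
def pV (h i j : ℕ) : ℤ := if j = 2 * h ∨ (i < h ∧ h ≤ j) then 1 else (-1) ^ (i + j)

lemma pV_cases (h i j : ℕ) : pV h i j = 1 ∨ pV h i j = -1 := by
  unfold pV
  split_ifs
  · left; rfl
  · exact neg_one_pow_eq_or ℤ _

lemma good_mono {F : Type} [Field F] [Fintype F] [DecidableEq F] {D n m : ℕ} {c : ℕ → F}
    (h : n ≤ m) (hg : Good D m c) : Good D n c := by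
  intro A hA hne
  exact hg A (hA.trans (range_mono h)) hne

lemma row_sum_large {F : Type} [Field F] [Fintype F] [DecidableEq F] {h : ℕ} {c : ℕ → F}
    (hpat : ∀ j < 2 * h + 1, ∀ i < j, ch (c j - c i) = pV h i j) (hh : 100 ≤ h) {j : ℕ}
    (hj : j < 2 * h + 1) : 64 ≤ |∑ i ∈ range (2 * h), ch (c i - c j)| := by
  have hlow : ∀ i < j, ch (c i - c j) = ch (-1 : F) * pV h i j := by
    intro i hi
    rw [ch_swap, hpat j hj i hi]
  have hhigh : ∀ i, j < i → i < 2 * h + 1 → ch (c i - c j) = pV h j i := by
    intro i hi hi'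
    exact hpat i hi' j hi
  have hself : ch (c j - c j) = 0 := by rw [sub_self, ch_zero]
  have hm : |ch (-1 : F)| = 1 := by rcases ch_neg_one (F := F) with h | h <;> rw [h] <;> rfl
  by_cases h1 : j = 2 * h
  · have : ∑ i ∈ range (2 * h), ch (c i - c j) = ∑ _i ∈ range (2 * h), ch (-1 : F) := by
      apply sum_congr rfl
      intro i hi
      rw [mem_range] at hi
      rw [hlow i (by omega), pV, if_pos (Or.inl h1), mul_one]
    rw [this, sum_const, card_range, nsmul_eq_mul, abs_mul, hm, mul_one]
    rw [abs_of_nonneg (by positivity)]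
    push_cast
    omega
  · by_cases h2 : j < h
    · have e1 : ∑ i ∈ range (2 * h), ch (c i - c j) =
          ch (-1 : F) * ∑ i ∈ Ico 0 j, (-1 : ℤ) ^ (i + j) + (∑ i ∈ Ico (j + 1) h, (-1 : ℤ) ^ (i + j) +
            (h : ℤ)) := by
        rw [range_eq_Ico, ← sum_Ico_consecutive _ (Nat.zero_le j) (show j ≤ 2 * h by omega),
          ← sum_Ico_consecutive _ (show j ≤ h by omega) (show h ≤ 2 * h by omega),
          sum_eq_sum_Ico_succ_bot h2, hself, zero_add]
        congr 1
        · rw [mul_sum]
          apply sum_congr rfl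
          intro i hi
          rw [mem_Ico] at hi
          rw [hlow i hi.2, pV, if_neg (by omega)]
        · congr 1
          · apply sum_congr rfl
            intro i hi
            rw [mem_Ico] at hi
            rw [hhigh i (by omega) (by omega), pV, if_neg (by omega), add_comm i j]
          · have : ∑ i ∈ Ico h (2 * h), ch (c i - c j) = ∑ _i ∈ Ico h (2 * h), (1 : ℤ) := by
              apply sum_congr rfl
              intro i hi
              rw [mem_Ico] at hi
              rw [hhigh i (by omega) (by omega), pV, if_pos (by omega)]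
            rw [this, sum_const, Nat.card_Ico]
            simp only [mul_one, nsmul_eq_mul]
            omega
      have b1 := alt_bound 0 j j
      have b2 := alt_bound (j + 1) h j
      have b3 : |ch (-1 : F) * ∑ i ∈ Ico 0 j, (-1 : ℤ) ^ (i + j)| ≤ 1 := by
        rw [abs_mul, hm, one_mul]; exact b1
      rw [e1]
      rw [abs_le] at b2 b3
      refine le_trans ?_ (le_abs_self _)
      omega
    · have e1 : ∑ i ∈ range (2 * h), ch (c i - c j) =
          ch (-1 : F) * (h : ℤ) + (ch (-1 : F) * ∑ i ∈ Ico h j, (-1 : ℤ) ^ (i + j) +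
            ∑ i ∈ Ico (j + 1) (2 * h), (-1 : ℤ) ^ (i + j)) := by
        rw [range_eq_Ico, ← sum_Ico_consecutive _ (Nat.zero_le h) (show h ≤ 2 * h by omega),
          ← sum_Ico_consecutive _ (show h ≤ j by omega) (show j ≤ 2 * h by omega),
          sum_eq_sum_Ico_succ_bot (show j < 2 * h by omega), hself, zero_add]
        congr 1
        · have : ∑ i ∈ Ico 0 h, ch (c i - c j) = ∑ _i ∈ Ico 0 h, ch (-1 : F) := by
            apply sum_congr rfl
            intro i hi
            rw [mem_Ico] at hi
            rw [hlow i (by omega), pV, if_pos (by omega), mul_one]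
          rw [this, sum_const, Nat.card_Ico, Nat.sub_zero, nsmul_eq_mul, mul_comm]
        · congr 1
          · rw [mul_sum]
            apply sum_congr rfl
            intro i hi
            rw [mem_Ico] at hi
            rw [hlow i (by omega), pV, if_neg (by omega)]
          · apply sum_congr rfl
            intro i hi
            rw [mem_Ico] at hi
            rw [hhigh i (by omega) (by omega), pV, if_neg (by omega), add_comm i j]
      have b1 := alt_bound h j j
      have b2 := alt_bound (j + 1) (2 * h) j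
      have b3 : |ch (-1 : F) * ∑ i ∈ Ico h j, (-1 : ℤ) ^ (i + j)| ≤ 1 := by
        rw [abs_mul, hm, one_mul]; exact b1
      rw [e1]
      rw [abs_le] at b2 b3
      rcases ch_neg_one (F := F) with hc | hc
      · refine le_trans ?_ (le_abs_self _)
        rw [hc] at b3 ⊢
        omega
      · refine le_trans ?_ (neg_le_abs _)
        rw [hc] at b3 ⊢
        omega

theorem exists_VU : ∃ h Q0 : ℕ, 100 ≤ h ∧
    ∀ (F : Type) [Field F] [Fintype F] [DecidableEq F], ringChar F ≠ 2 →
      Q0 ≤ Fintype.card F → ∃ (V : Finset F) (u : F), u ∉ V ∧ V.card = 2 * h ∧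
        (∀ w ∈ insert u V, 64 ≤ |∑ c ∈ V, ch (c - w)|) ∧ RGall (insert u V) ∧
        8 * (univ.filter (fun b : F => |∑ c ∈ V, ch (c - b)| < 64)).card ≤ Fintype.card F := by
  obtain ⟨h, hh, hcb⟩ := exists_h
  obtain ⟨Q0, hQ0⟩ := exists_seq (2 * h + 1) (2 ^ (2 * h + 1 + 1)) le_rfl (2 * h + 1) le_rfl
  refine ⟨h, max Q0 (32 * h), hh, ?_⟩
  intro F _ _ _ hF hq
  obtain ⟨c, hinj, hpat, hgood, hRG⟩ := hQ0 F hF ((le_max_left _ _).trans hq) (pV h) (pV_cases h)
  have hinjV : ∀ x ∈ range (2 * h), ∀ y ∈ range (2 * h), c x = c y → x = y := by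
    intro x hx y hy hxy
    rw [mem_range] at hx hy
    exact hinj x (by omega) y (by omega) hxy
  refine ⟨(range (2 * h)).image c, c (2 * h), ?_, ?_, ?_, ?_, ?_⟩
  · intro hmem
    rw [mem_image] at hmem
    obtain ⟨i, hi, hi'⟩ := hmem
    rw [mem_range] at hi
    have := hinj i (by omega) (2 * h) (by omega) hi'
    omega
  · rw [card_image_of_injOn, card_range]
    intro x hx y hy hxy
    exact hinjV x hx y hy hxy
  · intro w hw
    rw [sum_image hinjV]
    rw [mem_insert, mem_image] at hw
    rcases hw with rfl | ⟨j, hj, rfl⟩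
    · exact row_sum_large hpat hh (by omega)
    · rw [mem_range] at hj
      exact row_sum_large hpat hh (by omega)
  · have : insert (c (2 * h)) ((range (2 * h)).image c) = (range (2 * h + 1)).image c := by
      rw [range_add_one, image_insert]
    rw [this]
    exact hRG
  · have hg' : Good (2 ^ (2 * h + 1 + 1)) (2 * h) c := good_mono (by omega) hgood
    have := card_small_ball hg' (Nat.pow_le_pow_right (by norm_num) (by omega)) hcb
      ((le_max_right _ _).trans hq)
    refine le_trans (le_of_eq ?_) this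
    congr 2
    ext b
    simp only [mem_filter, mem_univ, true_and]
    rw [sum_image hinjV]
    have : ∑ x ∈ range (2 * h), ch (c x - b) = ch (-1 : F) * ∑ x ∈ range (2 * h), ch (b - c x) := by
      rw [mul_sum]
      apply sum_congr rfl
      intro i _
      exact ch_swap _ _
    rw [this, abs_mul]
    have hm : |ch (-1 : F)| = 1 := by rcases ch_neg_one (F := F) with h | h <;> rw [h] <;> rfl
    rw [hm, one_mul]

/-- sign pattern of the pentagon -/
def pP (i j : ℕ) : ℤ := if j = i + 1 ∨ j = i + 4 then 1 else -1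

/-- sign pattern of the rotational tournament -/
def pT (i j : ℕ) : ℤ := if j ≤ i + 2 then 1 else -1

theorem exists_Lam : ∃ Q0 : ℕ,
    ∀ (F : Type) [Field F] [Fintype F] [DecidableEq F], ringChar F ≠ 2 →
      Q0 ≤ Fintype.card F → ∃ L : Finset F, L.card = 5 ∧
        ∀ l ∈ L, ∑ l' ∈ L, ch (l - l') = 0 := by
  obtain ⟨Q0, hQ0⟩ := exists_seq 5 64 (by norm_num) 5 le_rfl
  refine ⟨Q0, ?_⟩
  intro F _ _ _ hF hq
  obtain ⟨p, hp, hp1⟩ : ∃ p : ℕ → ℕ → ℤ, (∀ i j, p i j = 1 ∨ p i j = -1) ∧
      ((ch (-1 : F) = 1 ∧ p = pP) ∨ (ch (-1 : F) = -1 ∧ p = pT)) := by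
    rcases ch_neg_one (F := F) with h | h
    · refine ⟨pP, ?_, Or.inl ⟨h, rfl⟩⟩
      intro i j; unfold pP; split_ifs <;> simp
    · refine ⟨pT, ?_, Or.inr ⟨h, rfl⟩⟩
      intro i j; unfold pT; split_ifs <;> simp
  obtain ⟨c, hinj, hpat, -, -⟩ := hQ0 F hF hq p hp
  have hinjV : ∀ x ∈ range 5, ∀ y ∈ range 5, c x = c y → x = y := by
    intro x hx y hy hxy
    rw [mem_range] at hx hy
    exact hinj x (by omega) y (by omega) hxy
  refine ⟨(range 5).image c, ?_, ?_⟩
  · rw [card_image_of_injOn, card_range]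
    intro x hx y hy hxy
    exact hinjV x hx y hy hxy
  · intro l hl
    rw [sum_image hinjV]
    rw [mem_image] at hl
    obtain ⟨j, hj, rfl⟩ := hl
    rw [mem_range] at hj
    have h10 := hpat 1 (by omega) 0 (by omega)
    have h20 := hpat 2 (by omega) 0 (by omega)
    have h30 := hpat 3 (by omega) 0 (by omega)
    have h40 := hpat 4 (by omega) 0 (by omega)
    have h21 := hpat 2 (by omega) 1 (by omega)
    have h31 := hpat 3 (by omega) 1 (by omega)
    have h41 := hpat 4 (by omega) 1 (by omega)
    have h32 := hpat 3 (by omega) 2 (by omega)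
    have h42 := hpat 4 (by omega) 2 (by omega)
    have h43 := hpat 4 (by omega) 3 (by omega)
    have g10 := ch_swap (c 0) (c 1)
    have g20 := ch_swap (c 0) (c 2)
    have g30 := ch_swap (c 0) (c 3)
    have g40 := ch_swap (c 0) (c 4)
    have g21 := ch_swap (c 1) (c 2)
    have g31 := ch_swap (c 1) (c 3)
    have g41 := ch_swap (c 1) (c 4)
    have g32 := ch_swap (c 2) (c 3)
    have g42 := ch_swap (c 2) (c 4)
    have g43 := ch_swap (c 3) (c 4)
    rw [h10] at g10
    rw [h20] at g20
    rw [h30] at g30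
    rw [h40] at g40
    rw [h21] at g21
    rw [h31] at g31
    rw [h41] at g41
    rw [h32] at g32
    rw [h42] at g42
    rw [h43] at g43
    rcases hp1 with ⟨hm, rfl⟩ | ⟨hm, rfl⟩
    · interval_cases j <;>
        simp [sum_range_succ, h10, h20, h30, h40, h21, h31, h41, h32, h42, h43, g10, g20, g30,
          g40, g21, g31, g41, g32, g42, g43, hm, pP, ch_zero]
    · interval_cases j <;>
        simp [sum_range_succ, h10, h20, h30, h40, h21, h31, h41, h32, h42, h43, g10, g20, g30,
          g40, g21, g31, g41, g32, g42, g43, hm, pT, ch_zero]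

end KAvoid
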