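import Pool.Agent.KAvoid.Outer

set_option autoImplicit false

namespace KAvoid

open Finset

/-! ### the bent set in `F_2^8` -/

abbrev W8 := Fin 4 → ZMod 2 × ZMod 2

/-- the sign of an element of `ZMod 2` -/
def sg (a : ZMod 2) : ℤ := if a = 0 then 1 else -1

lemma sg_add (a b : ZMod 2) : sg (a + b) = sg a * sg b := by
  revert a b; decide

lemma sg_zero : sg 0 = 1 := rfl

lemma sg_sum {ι : Type} (s : Finset ι) (f : ι → ZMod 2) : sg (∑ i ∈ s, f i) = ∏ i ∈ s, sg (f i) := by
  classical
  induction s using Finset.induction_on with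
  | empty => simp [sg_zero]
  | insert i s hi ih => rw [sum_insert hi, prod_insert hi, sg_add, ih]

/-- the quadratic form -/
def qf (w : W8) : ZMod 2 := ∑ i, (w i).1 * (w i).2

/-- a linear form -/
def lf (α β : Fin 4 → ZMod 2) (w : W8) : ZMod 2 := ∑ i, (α i * (w i).1 + β i * (w i).2)

lemma sum_prod_sg (G : Fin 4 → ZMod 2 × ZMod 2 → ZMod 2) :
    ∑ w : W8, sg (∑ i, G i (w i)) = ∏ i, ∑ p : ZMod 2 × ZMod 2, sg (G i p) := by
  rw [Finset.prod_univ_sum]
  rw [Fintype.piFinset_univ]
  apply sum_congr rfl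
  intro w _
  rw [sg_sum]

lemma sum_sg_qf : ∑ w : W8, sg (qf w) = 16 := by
  unfold qf
  rw [sum_prod_sg (fun _ p => p.1 * p.2)]
  decide

lemma sum_sg_lf (α β : Fin 4 → ZMod 2) : ∑ w : W8, sg (lf α β w) =
    if (∀ i, α i = 0 ∧ β i = 0) then 256 else 0 := by
  unfold lf
  rw [sum_prod_sg (fun i p => α i * p.1 + β i * p.2)]
  have h : ∀ a b : ZMod 2, ∑ p : ZMod 2 × ZMod 2, sg (a * p.1 + b * p.2) =
      if a = 0 ∧ b = 0 then 4 else 0 := by decide
  simp_rw [h]
  by_cases hall : ∀ i, α i = 0 ∧ β i = 0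
  · rw [if_pos hall]
    simp [hall]
  · rw [if_neg hall]
    push Not at hall
    obtain ⟨i, hi⟩ := hall
    apply prod_eq_zero (mem_univ i)
    rw [if_neg]
    rintro ⟨h1, h2⟩
    exact hi h1 h2

lemma sum_sg_qf_lf (α β : Fin 4 → ZMod 2) : ∑ w : W8, sg (qf w + lf α β w) =
    16 * ∏ i, sg (α i * β i) := by
  unfold qf lf
  simp_rw [← sum_add_distrib]
  rw [sum_prod_sg (fun i p => p.1 * p.2 + (α i * p.1 + β i * p.2))]
  have h : ∀ a b : ZMod 2, ∑ p : ZMod 2 × ZMod 2, sg (p.1 * p.2 + (a * p.1 + b * p.2)) =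
      2 * sg (a * b) := by decide
  simp_rw [h]
  rw [prod_mul_distrib]
  simp

lemma prod_sg_eq (f : Fin 4 → ZMod 2) : (∏ i, sg (f i)) = 1 ∨ (∏ i, sg (f i)) = -1 := by
  rw [← sg_sum]
  generalize (∑ i, f i) = a
  revert a; decide

lemma card_W8 : (Fintype.card W8 : ℤ) = 256 := by
  simp [W8]

lemma card_bent : (univ.filter (fun w : W8 => qf w = 1)).card = 120 := by
  have h : ∀ w : W8, (2 : ℤ) * (if qf w = 1 then 1 else 0) = 1 - sg (qf w) := by
    intro w
    generalize qf w = a
    revert a; decide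
  have h2 : (2 : ℤ) * ((univ.filter (fun w : W8 => qf w = 1)).card : ℤ) = 240 := by
    rw [card_filter]
    push_cast
    rw [mul_sum]
    simp_rw [h]
    rw [sum_sub_distrib, sum_sg_qf]
    simp
  omega

lemma card_bent_lf (α β : Fin 4 → ZMod 2) :
    (univ.filter (fun w : W8 => qf w = 1 ∧ lf α β w = 1)).card = 0 ∨
    (univ.filter (fun w : W8 => qf w = 1 ∧ lf α β w = 1)).card = 56 ∨
    (univ.filter (fun w : W8 => qf w = 1 ∧ lf α β w = 1)).card = 64 := by
  have h : ∀ w : W8, (4 : ℤ) * (if qf w = 1 ∧ lf α β w = 1 then 1 else 0) =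
      1 - sg (qf w) - sg (lf α β w) + sg (qf w + lf α β w) := by
    intro w
    generalize qf w = a
    generalize lf α β w = b
    revert a b; decide
  have h2 : (4 : ℤ) * ((univ.filter (fun w : W8 => qf w = 1 ∧ lf α β w = 1)).card : ℤ) =
      256 - 16 - (if (∀ i, α i = 0 ∧ β i = 0) then 256 else 0) + 16 * ∏ i, sg (α i * β i) := by
    rw [card_filter]
    push_cast
    rw [mul_sum]
    simp_rw [h]
    rw [sum_add_distrib, sum_sub_distrib, sum_sub_distrib, sum_sg_qf, sum_sg_lf, sum_sg_qf_lf]
    simp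
  by_cases hall : ∀ i, α i = 0 ∧ β i = 0
  · rw [if_pos hall] at h2
    have : ∏ i, sg (α i * β i) = 1 := by
      simp [hall, sg_zero]
    rw [this] at h2
    left; omega
  · rw [if_neg hall] at h2
    rcases prod_sg_eq (fun i => α i * β i) with h3 | h3
    · rw [h3] at h2; right; right; omega
    · rw [h3] at h2; right; left; omega

/-- every additive map on `W8` is a linear form -/
lemma addHom_eq_lf (φ : W8 →+ ZMod 2) : ∃ α β : Fin 4 → ZMod 2, ∀ w, φ w = lf α β w := by
  refine ⟨fun i => φ (Pi.single i (1, 0)), fun i => φ (Pi.single i (0, 1)), ?_⟩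
  intro w
  have hw : w = ∑ i, Pi.single i (w i) := by
    rw [Finset.univ_sum_single]
  conv_lhs => rw [hw]
  rw [map_sum]
  unfold lf
  apply sum_congr rfl
  intro i _
  have h1 : ∀ p : ZMod 2 × ZMod 2, (Pi.single i p : W8) =
      Pi.single i (p.1, 0) + Pi.single i (0, p.2) := by
    intro p
    rw [← Pi.single_add]
    simp
  rw [h1, map_add]
  have h01 : ∀ a : ZMod 2, a = 0 ∨ a = 1 := by decide
  have hz : (Pi.single i ((0 : ZMod 2), (0 : ZMod 2)) : W8) = 0 := by
    rw [← Prod.zero_eq_mk, Pi.single_zero]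
  have h2 : ∀ a : ZMod 2, φ (Pi.single i (a, 0)) = φ (Pi.single i (1, 0)) * a := by
    intro a
    rcases h01 a with rfl | rfl
    · rw [hz, map_zero, mul_zero]
    · rw [mul_one]
  have h3 : ∀ a : ZMod 2, φ (Pi.single i (0, a)) = φ (Pi.single i (0, 1)) * a := by
    intro a
    rcases h01 a with rfl | rfl
    · rw [hz, map_zero, mul_zero]
    · rw [mul_one]
  rw [h2, h3]

/-- the data used in even characteristic -/
lemma exists_bent_data (F : Type) [Field F] [Fintype F] [DecidableEq F] [CharP F 2]
    (hq : 256 ≤ Fintype.card F) :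
    ∃ (τ : F →+ ZMod 2) (V : Finset F), (∃ z, τ z = 1) ∧ V.card = 120 ∧
      ∀ φ : F →+ ZMod 2, (V.filter (fun v => φ v = 1)).card = 0 ∨
        (V.filter (fun v => φ v = 1)).card = 56 ∨ (V.filter (fun v => φ v = 1)).card = 64 := by
  let _ : Algebra (ZMod 2) F := ZMod.algebra F 2
  have : Module.Finite (ZMod 2) F := Module.Finite.of_finite
  set d := Module.finrank (ZMod 2) F with hd
  have hcard : Fintype.card F = 2 ^ d := by
    rw [hd, Module.card_eq_pow_finrank (K := ZMod 2) (V := F), ZMod.card]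
  have hd8 : 8 ≤ d := by
    by_contra hlt
    push Not at hlt
    have : 2 ^ d < 2 ^ 8 := Nat.pow_lt_pow_right (by norm_num) hlt
    rw [← hcard] at this
    omega
  let b : Module.Basis (Fin d) (ZMod 2) F := Module.finBasisOfFinrankEq (ZMod 2) F hd.symm
  -- the embedding of `W8`
  let e1 : Fin 4 → Fin d := fun i => ⟨i.1, by omega⟩
  let e2 : Fin 4 → Fin d := fun i => ⟨i.1 + 4, by omega⟩
  let ι : W8 →+ F :=
    { toFun := fun w => ∑ i, ((w i).1 • b (e1 i) + (w i).2 • b (e2 i))
      map_zero' := by simp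
      map_add' := by
        intro w w'
        rw [← sum_add_distrib]
        apply sum_congr rfl
        intro i _
        simp only [Pi.add_apply, Prod.fst_add, Prod.snd_add, add_smul]
        abel }
  have hι : Function.Injective ι := by
    rw [injective_iff_map_eq_zero]
    intro w hw
    have hw' : ∑ i, ((w i).1 • b (e1 i) + (w i).2 • b (e2 i)) = 0 := hw
    have c1 : ∀ j, (w j).1 = 0 := by
      intro j
      have := congrArg (fun z => b.coord (e1 j) z) hw'
      simp only [map_sum, map_add, map_smul, Module.Basis.coord_apply, Module.Basis.repr_self, map_zero] at this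
      rw [Finset.sum_eq_single j] at this
      · have hne : e2 j ≠ e1 j := by
          intro h; have := congrArg Fin.val h; simp [e1, e2] at this
        simpa [Finsupp.single_apply, hne] using this
      · intro i _ hij
        have h1 : e1 i ≠ e1 j := by
          intro h; apply hij; have := congrArg Fin.val h; simp [e1] at this; exact Fin.ext this
        have h2 : e2 i ≠ e1 j := by
          intro h; have := congrArg Fin.val h; simp [e1, e2] at this; omega
        simp [h1, h2]
      · intro h; exact absurd (mem_univ j) h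
    have c2 : ∀ j, (w j).2 = 0 := by
      intro j
      have := congrArg (fun z => b.coord (e2 j) z) hw'
      simp only [map_sum, map_add, map_smul, Module.Basis.coord_apply, Module.Basis.repr_self, map_zero] at this
      rw [Finset.sum_eq_single j] at this
      · have hne : e1 j ≠ e2 j := by
          intro h; have := congrArg Fin.val h; simp [e1, e2] at this
        simpa [Finsupp.single_apply, hne] using this
      · intro i _ hij
        have h1 : e2 i ≠ e2 j := by
          intro h; apply hij; have := congrArg Fin.val h; simp [e2] at this; exact Fin.ext this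
        have h2 : e1 i ≠ e2 j := by
          intro h; have := congrArg Fin.val h; simp [e1, e2] at this; omega
        simp [h1, h2]
      · intro h; exact absurd (mem_univ j) h
    funext j
    exact Prod.ext (c1 j) (c2 j)
  refine ⟨(b.coord ⟨0, by omega⟩).toAddMonoidHom,
    (univ.filter (fun w : W8 => qf w = 1)).image ι, ⟨b ⟨0, by omega⟩, ?_⟩, ?_, ?_⟩
  · simp
  · rw [card_image_of_injective _ hι, card_bent]
  · intro φ
    obtain ⟨α, β, hαβ⟩ := addHom_eq_lf (φ.comp ι)
    have : ((univ.filter (fun w : W8 => qf w = 1)).image ι).filter (fun v => φ v = 1) =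
        (univ.filter (fun w : W8 => qf w = 1 ∧ lf α β w = 1)).image ι := by
      ext v
      simp only [mem_filter, mem_image, mem_univ, true_and]
      constructor
      · rintro ⟨⟨w, hw, rfl⟩, hv⟩
        exact ⟨w, ⟨hw, by rw [← hαβ]; exact hv⟩, rfl⟩
      · rintro ⟨w, ⟨hw, hw2⟩, rfl⟩
        exact ⟨⟨w, hw, rfl⟩, by rw [← hαβ] at hw2; exact hw2⟩
    rw [this, card_image_of_injective _ hι]
    exact card_bent_lf α β

end KAvoid
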