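import Pool.Agent.KAvoid.Even

set_option autoImplicit false

namespace KAvoid

open Finset

theorem avoidC_even (F : Type) [Field F] [Fintype F] [DecidableEq F] [CharP F 2]
    (hq : 1024 ≤ Fintype.card F) {k m : ℕ} (hk : 130 ≤ k) (hk2 : 2 * k ≤ Fintype.card F + 1)
    (h1 : (k - 1) * Fintype.card F ≤ m) (h2 : m ≤ (k + 1) * Fintype.card F) : AvoidC F k m := by
  obtain ⟨τ, V, ⟨z, hz⟩, hV, hφ⟩ := exists_bent_data F (by omega)
  set q := Fintype.card F with hqdef
  have h01 : ∀ a : ZMod 2, a = 0 ∨ a = 1 := by decide
  -- the two halves
  set H0 : Finset F := univ.filter (fun x => τ x = 0) with hH0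
  set H1 : Finset F := univ.filter (fun x => τ x = 1) with hH1
  have hHcard : H0.card = H1.card := by
    apply card_bij (fun x _ => x + z)
    · intro x hx
      simp only [hH0, hH1, mem_filter, mem_univ, true_and] at hx ⊢
      rw [map_add, hx, hz]; rfl
    · intro x _ y _ h
      exact add_right_cancel h
    · intro y hy
      simp only [hH0, hH1, mem_filter, mem_univ, true_and] at hy ⊢
      refine ⟨y - z, ?_, by ring⟩
      rw [map_sub, hy, hz]; rfl
  have hHsum : H0.card + H1.card = q := by
    rw [hH0, hH1, hqdef, ← Finset.card_univ,
      ← Finset.card_filter_add_card_filter_not (s := (univ : Finset F)) (fun x : F => τ x = 0)]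
    congr 2
    ext x
    simp only [mem_filter, mem_univ, true_and]
    rcases h01 (τ x) with h | h <;> simp [h]
  -- the parameters
  obtain ⟨t, M, ht, hM, hmeq⟩ : ∃ t M : ℕ, (k = t + 60 ∨ k = t + 61) ∧ M ≤ q ∧
      m = (t + 60) * q + M := by
    by_cases c : k * q ≤ m
    · refine ⟨k - 60, m - k * q, by omega, ?_, ?_⟩
      · have : (k + 1) * q = k * q + q := by ring
        omega
      · have : k - 60 + 60 = k := by omega
        rw [this]; omega
    · refine ⟨k - 61, m - (k - 1) * q, by omega, ?_, ?_⟩
      · have : k * q = (k - 1) * q + q := by
          have : k = (k - 1) + 1 := by omega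
          conv_lhs => rw [this]
          ring
        omega
      · have : k - 61 + 60 = k - 1 := by omega
        rw [this]; omega
  -- the extra point
  obtain ⟨T, hTsub, hTcard⟩ := Finset.exists_subset_card_eq (s := H0) (n := t) (by omega)
  obtain ⟨x2, hx2, hx2T⟩ : ∃ x2 ∈ H0, x2 ∉ T := by
    by_contra hcon
    push Not at hcon
    have := card_le_card (show H0 ⊆ T from hcon)
    omega
  set X2 : Finset F := if M = k then {x2} else ∅ with hX2
  have hX2card : X2.card = if M = k then 1 else 0 := by
    rw [hX2]; split_ifs <;> simp
  have hX2card1 : X2.card ≤ 1 := by rw [hX2card]; split_ifs <;> omega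
  have hX2sub : ∀ x ∈ X2, x = x2 := by
    intro x hx
    rw [hX2] at hx
    split_ifs at hx with h
    · simpa using hx
    · simp at hx
  obtain ⟨A, _, hAcard⟩ := Finset.exists_subset_card_eq (s := (univ : Finset F)) (n := M - X2.card)
    (by rw [card_univ]; omega)
  have hMX : X2.card ≤ M := by
    rw [hX2card]; split_ifs <;> omega
  have hAk : A.card ≠ k := by
    rw [hAcard, hX2card]; split_ifs <;> omega
  have hdisj1 : ∀ x, x ∈ T → x ∉ H1 := by
    intro x hx hx1
    have := hTsub hx
    simp only [hH0, hH1, mem_filter, mem_univ, true_and] at this hx1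
    rw [this] at hx1; exact absurd hx1 (by decide)
  have hdisj2 : ∀ x, x ∈ X2 → x ∉ H1 := by
    intro x hx hx1
    rw [hX2sub x hx] at hx1
    simp only [hH0, hH1, mem_filter, mem_univ, true_and] at hx2 hx1
    rw [hx2] at hx1; exact absurd hx1 (by decide)
  have hdisj3 : ∀ x, x ∈ X2 → x ∉ T := by
    intro x hx hx1
    rw [hX2sub x hx] at hx1
    exact hx2T hx1
  refine ⟨(T ×ˢ univ) ∪ ((H1 ×ˢ V) ∪ (X2 ×ˢ {0})), A, 0, by omega, ?_, ?_, ?_, ?_⟩
  · rw [card_union_of_disjoint, card_union_of_disjoint]
    · rw [card_product, card_product, card_product, card_univ, hTcard, hV, hAcard, card_singleton,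
        hmeq]
      have : H1.card * 120 = 60 * q := by omega
      rw [this, ← hqdef]
      have e : (t + 60) * q = t * q + 60 * q := by ring
      omega
    · rw [disjoint_left]
      rintro ⟨x, y⟩ h h'
      rw [mem_product] at h h'
      exact hdisj2 _ h'.1 h.1
    · rw [disjoint_left]
      rintro ⟨x, y⟩ h h'
      rw [mem_union, mem_product, mem_product] at h'
      rw [mem_product] at h
      rcases h' with h' | h'
      · exact hdisj1 _ h.1 h'.1
      · exact hdisj3 _ h'.1 h.1
  · intro a b
    -- count on the line y = a x + b
    have hsplit : (univ.filter (fun x : F => (x, a * x + b) ∈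
        (T ×ˢ univ) ∪ ((H1 ×ˢ V) ∪ (X2 ×ˢ {0})))) =
        T ∪ ((H1.filter (fun x => a * x + b ∈ V)) ∪ (X2.filter (fun x => a * x + b = 0))) := by
      ext x
      simp only [mem_filter, mem_univ, true_and, mem_union, mem_product, and_true, mem_singleton]
    rw [hsplit, card_union_of_disjoint, card_union_of_disjoint, hTcard]
    · have hx2le : (X2.filter (fun x => a * x + b = 0)).card ≤ 1 :=
        (card_filter_le _ _).trans hX2card1
      have hif : (if a ∈ A then 1 else 0) ≤ 1 := by split_ifs <;> omega
      by_cases ha : a = 0
      · subst ha
        by_cases hb : b ∈ V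
        · have : H1.filter (fun x => (0 : F) * x + b ∈ V) = H1 := by
            apply filter_true_of_mem
            intro x _
            rw [zero_mul, zero_add]; exact hb
          rw [this]
          omega
        · have : H1.filter (fun x => (0 : F) * x + b ∈ V) = ∅ := by
            apply filter_false_of_mem
            intro x _
            rw [zero_mul, zero_add]; exact hb
          rw [this, card_empty]
          omega
      · -- main case
        let φ : F →+ ZMod 2 := τ.comp (AddMonoidHom.mulRight a⁻¹)
        have hφdef : ∀ v, φ v = τ (v * a⁻¹) := fun v => rfl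
        have hcount : (H1.filter (fun x => a * x + b ∈ V)).card =
            (V.filter (fun v => φ v = 1 + φ b)).card := by
          apply card_bij (fun x _ => a * x + b)
          · intro x hx
            simp only [hH1, mem_filter, mem_univ, true_and] at hx ⊢
            refine ⟨hx.2, ?_⟩
            rw [map_add, hφdef (a * x)]
            have : a * x * a⁻¹ = x := by field_simp
            rw [this, hx.1]
          · intro x _ y _ h
            exact mul_left_cancel₀ ha (add_right_cancel h)
          · intro v hv
            simp only [mem_filter] at hv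
            refine ⟨(v - b) * a⁻¹, ?_, ?_⟩
            · simp only [hH1, mem_filter, mem_univ, true_and]
              constructor
              · rw [sub_mul, map_sub, ← hφdef, ← hφdef, hv.2]; ring
              · have : a * ((v - b) * a⁻¹) + b = v := by field_simp; ring
                rw [this]; exact hv.1
            · field_simp; ring
        have hcompl : (V.filter (fun v => φ v = 1)).card + (V.filter (fun v => φ v = 0)).card =
            120 := by
          rw [← hV, ← Finset.card_filter_add_card_filter_not (s := V) (fun v => φ v = 1)]
          congr 2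
          ext v
          simp only [mem_filter]
          rcases h01 (φ v) with h | h <;> simp [h]
        have hvals := hφ φ
        rw [hcount]
        rcases h01 (φ b) with hb | hb
        · rw [hb, add_zero]
          omega
        · have : (1 : ZMod 2) + 1 = 0 := rfl
          rw [hb, this]
          omega
    · rw [disjoint_left]
      intro x h h'
      rw [mem_filter] at h h'
      exact hdisj2 _ h'.1 h.1
    · rw [disjoint_left]
      intro x h h'
      rw [mem_union] at h'
      rcases h' with h' | h'
      · exact hdisj1 _ h (mem_filter.mp h').1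
      · exact hdisj3 _ (mem_filter.mp h').1 h
  · intro x
    rw [add_zero]
    by_cases hxT : x ∈ T
    · have : univ.filter (fun y : F => (x, y) ∈ (T ×ˢ univ) ∪ ((H1 ×ˢ V) ∪ (X2 ×ˢ {0}))) =
          univ := by
        apply filter_true_of_mem
        intro y _
        simp [hxT]
      rw [this, card_univ]
      omega
    · by_cases hx1 : x ∈ H1
      · have : univ.filter (fun y : F => (x, y) ∈ (T ×ˢ univ) ∪ ((H1 ×ˢ V) ∪ (X2 ×ˢ {0}))) =
            V := by
          ext y
          have hx2' : x ∉ X2 := fun h => hdisj2 x h hx1
          simp only [mem_filter, mem_univ, true_and, mem_union, mem_product, hxT, hx1, hx2',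
            false_and, and_true, false_or, or_false]
        rw [this, hV]
        omega
      · have : univ.filter (fun y : F => (x, y) ∈ (T ×ˢ univ) ∪ ((H1 ×ˢ V) ∪ (X2 ×ˢ {0}))) ⊆
            {0} := by
          intro y hy
          simp only [mem_filter, mem_univ, true_and, mem_union, mem_product, hxT, hx1,
            false_and, and_true, false_or] at hy
          exact hy.2
        have := card_le_card this
        rw [card_singleton] at this
        omega
  · rw [add_zero]; exact hAk

end KAvoid
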