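import Pool.Agent.KAvoid.GreedySeq

set_option autoImplicit false

namespace KAvoid

open Finset

/-! ### central binomial bound -/

lemma centralBinom_sq_le (n : ℕ) : n.centralBinom ^ 2 * (3 * n + 1) ≤ 16 ^ n := by
  induction n with
  | zero => simp
  | succ n ih =>
    have h := Nat.succ_mul_centralBinom_succ n
    have h1 : (n + 1) ^ 2 * ((n + 1).centralBinom ^ 2 * (3 * (n + 1) + 1)) ≤
        (n + 1) ^ 2 * 16 ^ (n + 1) := by
      calc (n + 1) ^ 2 * ((n + 1).centralBinom ^ 2 * (3 * (n + 1) + 1))
          = ((n + 1) * (n + 1).centralBinom) ^ 2 * (3 * n + 4) := by ring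
        _ = (2 * (2 * n + 1) * n.centralBinom) ^ 2 * (3 * n + 4) := by rw [h]
        _ = 4 * ((2 * n + 1) ^ 2 * (3 * n + 4)) * n.centralBinom ^ 2 := by ring
        _ ≤ 4 * (4 * (n + 1) ^ 2 * (3 * n + 1)) * n.centralBinom ^ 2 := by
            have hp : (2 * n + 1) ^ 2 * (3 * n + 4) ≤ 4 * (n + 1) ^ 2 * (3 * n + 1) := by
              nlinarith [sq_nonneg n]
            exact Nat.mul_le_mul_right _ (Nat.mul_le_mul_left 4 hp)
        _ = 16 * (n + 1) ^ 2 * (n.centralBinom ^ 2 * (3 * n + 1)) := by ring
        _ ≤ 16 * (n + 1) ^ 2 * 16 ^ n := by gcongr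
        _ = (n + 1) ^ 2 * 16 ^ (n + 1) := by ring
    exact Nat.le_of_mul_le_mul_left h1 (by positivity)

lemma exists_h : ∃ h : ℕ, 100 ≤ h ∧ 2048 * h.centralBinom ≤ 4 ^ h := by
  obtain ⟨h, hh⟩ : ∃ h : ℕ, h = 2 ^ 21 := ⟨_, rfl⟩
  refine ⟨h, by rw [hh]; norm_num, ?_⟩
  have h1 := centralBinom_sq_le h
  have h2 : 2048 ^ 2 ≤ 3 * h + 1 := by rw [hh]; norm_num
  have h3 : (2048 * h.centralBinom) ^ 2 ≤ (4 ^ h) ^ 2 := by
    calc (2048 * h.centralBinom) ^ 2 = h.centralBinom ^ 2 * 2048 ^ 2 := by ring
      _ ≤ h.centralBinom ^ 2 * (3 * h + 1) := by gcongr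
      _ ≤ 16 ^ h := h1
      _ = (4 ^ h) ^ 2 := by rw [← pow_mul, mul_comm h 2, pow_mul]; norm_num
  exact (Nat.pow_le_pow_iff_left (by norm_num)).mp h3

/-! ### small ball bound -/

section

variable {F : Type} [Field F] [Fintype F] [DecidableEq F]

/-- the sign function of a set of indices -/
def sP (P : Finset ℕ) (i : ℕ) : ℤ := if i ∈ P then 1 else -1

lemma sP_cases (P : Finset ℕ) (i : ℕ) : sP P i = 1 ∨ sP P i = -1 := by
  unfold sP; split_ifs <;> simp

lemma card_pattern_le {D n : ℕ} {c : ℕ → F} (hg : Good D n c) (hD : 2 ^ n ≤ D) (P : Finset ℕ) :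
    2 ^ n * (univ.filter (fun b : F => ∀ i < n, ch (b - c i) = sP P i)).card ≤
      2 * Fintype.card F := by
  set X := univ.filter (fun b : F => ∀ i < n, ch (b - c i) = sP P i) with hX
  set Φ := ∑ y : F, ∏ i ∈ range n, (1 + sP P i * ch (y - c i)) with hΦ
  have h1 : (2 : ℤ) ^ n * X.card ≤ Φ := by
    calc (2 : ℤ) ^ n * X.card = ∑ _b ∈ X, (2 : ℤ) ^ n := by rw [sum_const, nsmul_eq_mul]; ring
      _ = ∑ b ∈ X, ∏ i ∈ range n, (1 + sP P i * ch (b - c i)) := by
          apply sum_congr rfl
          intro b hb
          rw [hX, mem_filter] at hb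
          symm
          calc ∏ i ∈ range n, (1 + sP P i * ch (b - c i)) = ∏ _i ∈ range n, (2 : ℤ) := by
                apply prod_congr rfl
                intro i hi
                rw [hb.2 i (mem_range.mp hi)]
                rcases sP_cases P i with h | h <;> rw [h] <;> rfl
            _ = 2 ^ n := by rw [prod_const, card_range]
      _ ≤ Φ := by
          apply sum_le_sum_of_subset_of_nonneg (subset_univ _)
          intro y _ _
          exact prod_factor_nonneg (sP_cases P) n c y
  have h2 := sum_prod_bounds hg (sP_cases P)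
  rw [← hΦ] at h2
  have hD' : (2 : ℤ) ^ n ≤ D := by exact_mod_cast hD
  have hDpos : (0 : ℤ) < D := lt_of_lt_of_le (by positivity) hD'
  have hq : (0 : ℤ) ≤ Fintype.card F := by positivity
  have h3 : (D : ℤ) * (Φ - Fintype.card F) ≤ D * Fintype.card F := by
    calc (D : ℤ) * (Φ - Fintype.card F) ≤ D * |Φ - Fintype.card F| :=
          mul_le_mul_of_nonneg_left (le_abs_self _) hDpos.le
      _ ≤ 2 ^ n * Fintype.card F := h2
      _ ≤ D * Fintype.card F := mul_le_mul_of_nonneg_right hD' hq
  have h4 := le_of_mul_le_mul_left h3 hDpos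
  have h5 : (2 : ℤ) ^ n * X.card ≤ 2 * Fintype.card F := by linarith
  exact_mod_cast h5

/-- number of subsets of nearly half size -/
lemma card_nearly_half (h : ℕ) :
    ((range (2 * h)).powerset.filter (fun P => |2 * (P.card : ℤ) - 2 * h| < 64)).card ≤
      64 * h.centralBinom := by
  set J : Finset ℕ := (range (2 * h + 1)).filter (fun j : ℕ => |2 * (j : ℤ) - 2 * h| < 64) with hJ
  have h1 : ((range (2 * h)).powerset.filter (fun P => |2 * (P.card : ℤ) - 2 * h| < 64)).card =
      ∑ j ∈ J, (((range (2 * h)).powerset.filter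
        (fun P => |2 * (P.card : ℤ) - 2 * h| < 64)).filter (fun P => P.card = j)).card := by
    apply card_eq_sum_card_fiberwise
    intro P hP
    rw [mem_coe, mem_filter, mem_powerset] at hP
    rw [mem_coe, hJ, mem_filter, mem_range]
    refine ⟨?_, hP.2⟩
    have := card_le_card hP.1
    rw [card_range] at this
    omega
  rw [h1]
  have hJcard : J.card ≤ 64 := by
    have : J ⊆ Ico (h - 31) (h + 32) := by
      intro j hj
      rw [hJ, mem_filter, abs_lt] at hj
      rw [mem_Ico]
      omega
    refine (card_le_card this).trans ?_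
    rw [Nat.card_Ico]; omega
  calc ∑ j ∈ J, (((range (2 * h)).powerset.filter
        (fun P => |2 * (P.card : ℤ) - 2 * h| < 64)).filter (fun P => P.card = j)).card
      ≤ ∑ _j ∈ J, h.centralBinom := by
        apply sum_le_sum
        intro j _
        calc (((range (2 * h)).powerset.filter
            (fun P => |2 * (P.card : ℤ) - 2 * h| < 64)).filter (fun P => P.card = j)).card
            ≤ (powersetCard j (range (2 * h))).card := by
              apply card_le_card
              intro P hP
              rw [mem_filter, mem_filter, mem_powerset] at hP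
              rw [mem_powersetCard]
              exact ⟨hP.1.1, hP.2⟩
          _ = (2 * h).choose j := by rw [card_powersetCard, card_range]
          _ ≤ h.centralBinom := Nat.choose_le_centralBinom j h
    _ = J.card * h.centralBinom := by rw [sum_const, smul_eq_mul]
    _ ≤ 64 * h.centralBinom := by gcongr

lemma card_small_ball {D h : ℕ} {c : ℕ → F} (hg : Good D (2 * h) c) (hD : 2 ^ (2 * h) ≤ D)
    (hh : 2048 * h.centralBinom ≤ 4 ^ h) (hq : 32 * h ≤ Fintype.card F) :
    8 * (univ.filter (fun b : F => |∑ i ∈ range (2 * h), ch (b - c i)| < 64)).card ≤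
      Fintype.card F := by
  set B := univ.filter (fun b : F => |∑ i ∈ range (2 * h), ch (b - c i)| < 64) with hB
  set PP := (range (2 * h)).powerset.filter (fun P => |2 * (P.card : ℤ) - 2 * h| < 64) with hPP
  have hsub : B ⊆ (range (2 * h)).image c ∪
      PP.biUnion (fun P => univ.filter (fun b : F => ∀ i < 2 * h, ch (b - c i) = sP P i)) := by
    intro b hb
    rw [hB, mem_filter] at hb
    rw [mem_union]
    by_cases hbc : b ∈ (range (2 * h)).image c
    · left; exact hbc
    · right
      rw [mem_biUnion]
      have hne : ∀ i < 2 * h, b - c i ≠ 0 := by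
        intro i hi h0
        apply hbc
        rw [mem_image]
        exact ⟨i, mem_range.mpr hi, (sub_eq_zero.mp h0).symm⟩
      set P := (range (2 * h)).filter (fun i => ch (b - c i) = 1) with hP
      have hpat : ∀ i < 2 * h, ch (b - c i) = sP P i := by
        intro i hi
        unfold sP
        split_ifs with hiP
        · rw [hP, mem_filter] at hiP; exact hiP.2
        · rcases ch_cases (hne i hi) with h1 | h1
          · exfalso; apply hiP; rw [hP, mem_filter]; exact ⟨mem_range.mpr hi, h1⟩
          · exact h1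
      refine ⟨P, ?_, ?_⟩
      · rw [hPP, mem_filter, mem_powerset]
        refine ⟨filter_subset _ _, ?_⟩
        have hsum : ∑ i ∈ range (2 * h), ch (b - c i) = 2 * (P.card : ℤ) - 2 * h := by
          calc ∑ i ∈ range (2 * h), ch (b - c i) =
              ∑ i ∈ range (2 * h), (2 * (if i ∈ P then (1 : ℤ) else 0) - 1) := by
                apply sum_congr rfl
                intro i hi
                rw [hpat i (mem_range.mp hi)]
                unfold sP
                split_ifs <;> rfl
            _ = 2 * (P.card : ℤ) - 2 * h := by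
                rw [sum_sub_distrib, ← mul_sum, sum_boole]
                have : (range (2 * h)).filter (fun i => i ∈ P) = P := by
                  ext i
                  rw [mem_filter]
                  constructor
                  · exact fun h => h.2
                  · intro hi
                    exact ⟨(mem_filter.mp (hP ▸ hi)).1, hi⟩
                rw [this]
                simp
        rw [← hsum]
        exact hb.2
      · rw [mem_filter]; exact ⟨mem_univ _, hpat⟩
  have hcard : B.card ≤ 2 * h + ∑ P ∈ PP, (univ.filter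
      (fun b : F => ∀ i < 2 * h, ch (b - c i) = sP P i)).card := by
    refine (card_le_card hsub).trans ((card_union_le _ _).trans ?_)
    gcongr
    · exact card_image_le.trans (by rw [card_range])
    · exact card_biUnion_le
  have hPPcard := card_nearly_half h
  rw [← hPP] at hPPcard
  have h4 : 2 ^ (2 * h) = 4 ^ h := by rw [pow_mul]; norm_num
  have key : 2 ^ (2 * h) * (8 * B.card) ≤ 2 ^ (2 * h) * Fintype.card F := by
    calc 2 ^ (2 * h) * (8 * B.card) ≤ 2 ^ (2 * h) * (8 * (2 * h + ∑ P ∈ PP, (univ.filter
          (fun b : F => ∀ i < 2 * h, ch (b - c i) = sP P i)).card)) := by gcongr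
      _ = 2 ^ (2 * h) * (16 * h) + 8 * ∑ P ∈ PP, (2 ^ (2 * h) * (univ.filter
          (fun b : F => ∀ i < 2 * h, ch (b - c i) = sP P i)).card) := by
          rw [← mul_sum]; ring
      _ ≤ 2 ^ (2 * h) * (16 * h) + 8 * ∑ _P ∈ PP, (2 * Fintype.card F) := by
          have hs := Finset.sum_le_sum (fun P (_ : P ∈ PP) => card_pattern_le hg hD P)
          exact Nat.add_le_add_left (Nat.mul_le_mul_left 8 hs) _
      _ = 2 ^ (2 * h) * (16 * h) + 16 * PP.card * Fintype.card F := by
          rw [sum_const, smul_eq_mul]; ring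
      _ ≤ 2 ^ (2 * h) * (16 * h) + 16 * (64 * h.centralBinom) * Fintype.card F := by gcongr
      _ ≤ 2 ^ (2 * h) * Fintype.card F := by
          rw [h4]
          nlinarith
  exact Nat.le_of_mul_le_mul_left key (by positivity)

end

end KAvoid
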