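import Pool.Agent.KAvoid.OddChar

set_option autoImplicit false

namespace KAvoid

open Finset

variable {F : Type} [Field F] [Fintype F] [DecidableEq F]

/-- product character sums -/
def WW (c : ℕ → F) (A : Finset ℕ) : ℤ := ∑ b : F, ∏ i ∈ A, ch (b - c i)

def Good (D n : ℕ) (c : ℕ → F) : Prop :=
  ∀ A ⊆ range n, A.Nonempty → (D : ℤ) * |WW c A| ≤ Fintype.card F

lemma WW_empty (c : ℕ → F) : WW c ∅ = Fintype.card F := by
  unfold WW; simp

lemma WW_congr {c c' : ℕ → F} {A : Finset ℕ} (h : ∀ i ∈ A, c i = c' i) : WW c A = WW c' A := by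
  unfold WW
  apply sum_congr rfl
  intro b _
  apply prod_congr rfl
  intro i hi
  rw [h i hi]

lemma abs_prod_ch_le (c : ℕ → F) (A : Finset ℕ) (b : F) : |∏ i ∈ A, ch (b - c i)| ≤ 1 := by
  rw [Finset.abs_prod]
  apply Finset.prod_le_one
  · intro i _; exact abs_nonneg _
  · intro i _; exact abs_ch_le _

/-- the expansion of a sum of products `1 + s ch` -/
lemma sum_prod_expand (n : ℕ) (c : ℕ → F) (s : ℕ → ℤ) :
    ∑ y : F, ∏ i ∈ range n, (1 + s i * ch (y - c i)) =
      ∑ A ∈ (range n).powerset, (∏ i ∈ A, s i) * WW c A := by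
  simp_rw [Finset.prod_one_add]
  rw [sum_comm]
  apply sum_congr rfl
  intro A _
  unfold WW
  rw [mul_sum]
  apply sum_congr rfl
  intro y _
  rw [prod_mul_distrib]

lemma abs_prod_sign {s : ℕ → ℤ} (hs : ∀ i, s i = 1 ∨ s i = -1) (A : Finset ℕ) :
    |∏ i ∈ A, s i| = 1 := by
  rw [Finset.abs_prod]
  apply Finset.prod_eq_one
  intro i _
  rcases hs i with h | h <;> rw [h] <;> simp

/-- bounds for the expansion -/
lemma sum_prod_bounds {D n : ℕ} {c : ℕ → F} (hg : Good D n c) {s : ℕ → ℤ}
    (hs : ∀ i, s i = 1 ∨ s i = -1) :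
    (D : ℤ) * |∑ y : F, ∏ i ∈ range n, (1 + s i * ch (y - c i)) - Fintype.card F| ≤
      2 ^ n * Fintype.card F := by
  rw [sum_prod_expand]
  have h0 : ∅ ∈ (range n).powerset := empty_mem_powerset _
  rw [← Finset.add_sum_erase _ _ h0, WW_empty, prod_empty, one_mul, add_sub_cancel_left]
  calc (D : ℤ) * |∑ A ∈ (range n).powerset.erase ∅, (∏ i ∈ A, s i) * WW c A|
      ≤ (D : ℤ) * ∑ A ∈ (range n).powerset.erase ∅, |(∏ i ∈ A, s i) * WW c A| := by
        apply mul_le_mul_of_nonneg_left (abs_sum_le_sum_abs _ _) (by positivity)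
    _ = ∑ A ∈ (range n).powerset.erase ∅, (D : ℤ) * |WW c A| := by
        rw [mul_sum]
        apply sum_congr rfl
        intro A _
        rw [abs_mul, abs_prod_sign hs, one_mul]
    _ ≤ ∑ A ∈ (range n).powerset.erase ∅, (Fintype.card F : ℤ) := by
        apply sum_le_sum
        intro A hA
        rw [mem_erase, mem_powerset] at hA
        exact hg A hA.2 (nonempty_iff_ne_empty.mpr hA.1)
    _ ≤ ∑ A ∈ (range n).powerset, (Fintype.card F : ℤ) := by
        apply sum_le_sum_of_subset_of_nonneg (erase_subset _ _)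
        intro _ _ _; positivity
    _ = 2 ^ n * Fintype.card F := by
        rw [sum_const, card_powerset, card_range]
        simp

/-- factors are nonnegative and at most 2 -/
lemma factor_bounds {s : ℤ} (hs : s = 1 ∨ s = -1) (x : F) :
    0 ≤ 1 + s * ch x ∧ 1 + s * ch x ≤ 2 := by
  have := abs_ch_le x
  rw [abs_le] at this
  rcases hs with h | h <;> rw [h] <;> constructor <;> linarith [this.1, this.2]

lemma prod_factor_nonneg {s : ℕ → ℤ} (hs : ∀ i, s i = 1 ∨ s i = -1) (n : ℕ) (c : ℕ → F) (y : F) :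
    0 ≤ ∏ i ∈ range n, (1 + s i * ch (y - c i)) :=
  prod_nonneg (fun i _ => (factor_bounds (hs i) _).1)

lemma prod_factor_le {s : ℕ → ℤ} (hs : ∀ i, s i = 1 ∨ s i = -1) (n : ℕ) (c : ℕ → F) (y : F) :
    ∏ i ∈ range n, (1 + s i * ch (y - c i)) ≤ 2 ^ n := by
  calc ∏ i ∈ range n, (1 + s i * ch (y - c i)) ≤ ∏ _i ∈ range n, (2 : ℤ) :=
        prod_le_prod (fun i _ => (factor_bounds (hs i) _).1) (fun i _ => (factor_bounds (hs i) _).2)
    _ = 2 ^ n := by rw [prod_const, card_range]

/-- lower bound for the number of `y` with prescribed signs -/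
lemma card_match_lower {D n : ℕ} {c : ℕ → F} (hg : Good D n c) {s : ℕ → ℤ}
    (hs : ∀ i, s i = 1 ∨ s i = -1) (hD : 2 ^ (n + 1) ≤ D) :
    Fintype.card F ≤ 2 ^ (n + 1) *
      ((univ.filter (fun y : F => ∀ i < n, ch (y - c i) = s i)).card + n) := by
  set M := univ.filter (fun y : F => ∀ i < n, ch (y - c i) = s i) with hM
  set I := (range n).image c with hI
  have hIcard : I.card ≤ n := by
    rw [hI]; exact card_image_le.trans (by rw [card_range])
  have up : ∑ y : F, ∏ i ∈ range n, (1 + s i * ch (y - c i)) ≤ 2 ^ n * ((M.card : ℤ) + n) := by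
    have h1 : ∑ y : F, ∏ i ∈ range n, (1 + s i * ch (y - c i)) =
        ∑ y ∈ M ∪ I, ∏ i ∈ range n, (1 + s i * ch (y - c i)) := by
      symm
      apply sum_subset (subset_univ _)
      intro y _ hy
      rw [mem_union, not_or] at hy
      obtain ⟨hy1, hy2⟩ := hy
      rw [hM, mem_filter] at hy1
      have hex : ∃ i < n, ch (y - c i) ≠ s i := by
        by_contra hcon
        push Not at hcon
        exact hy1 ⟨mem_univ _, hcon⟩
      obtain ⟨i, hi, hne⟩ := hex
      apply prod_eq_zero (mem_range.mpr hi)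
      have hyc : y - c i ≠ 0 := by
        intro h0
        apply hy2
        rw [hI, mem_image]
        exact ⟨i, mem_range.mpr hi, (sub_eq_zero.mp h0).symm⟩
      rcases ch_cases hyc with h | h <;> rcases hs i with h' | h' <;> rw [h, h'] at hne ⊢ <;>
        first | (exact absurd rfl hne) | norm_num
    rw [h1]
    calc ∑ y ∈ M ∪ I, ∏ i ∈ range n, (1 + s i * ch (y - c i)) ≤ ∑ _y ∈ M ∪ I, (2 : ℤ) ^ n :=
          sum_le_sum (fun y _ => prod_factor_le hs n c y)
      _ = ((M ∪ I).card : ℤ) * 2 ^ n := by rw [sum_const, nsmul_eq_mul]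
      _ ≤ ((M.card : ℤ) + n) * 2 ^ n := by
          apply mul_le_mul_of_nonneg_right _ (by positivity)
          have : (M ∪ I).card ≤ M.card + n := (card_union_le _ _).trans (by omega)
          exact_mod_cast this
      _ = 2 ^ n * ((M.card : ℤ) + n) := by ring
  have low := sum_prod_bounds hg hs
  set Φ := ∑ y : F, ∏ i ∈ range n, (1 + s i * ch (y - c i)) with hΦ
  have low2 : (D : ℤ) * ((Fintype.card F : ℤ) - Φ) ≤ 2 ^ n * Fintype.card F := by
    refine le_trans ?_ low
    apply mul_le_mul_of_nonneg_left _ (by positivity)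
    rw [abs_sub_comm]
    exact le_abs_self _
  have hD' : (2 : ℤ) ^ (n + 1) ≤ D := by exact_mod_cast hD
  have hDpos : (0 : ℤ) < D := lt_of_lt_of_le (by positivity) hD'
  have hq : (0 : ℤ) ≤ Fintype.card F := by positivity
  have key : (D : ℤ) * Fintype.card F ≤ D * (2 ^ (n + 1) * ((M.card : ℤ) + n)) := by
    have h2 : (D : ℤ) * Φ ≤ D * (2 ^ n * ((M.card : ℤ) + n)) :=
      mul_le_mul_of_nonneg_left up hDpos.le
    have h3 : (2 : ℤ) ^ (n + 1) * Fintype.card F ≤ D * Fintype.card F :=
      mul_le_mul_of_nonneg_right hD' hq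
    have e1 : (2 : ℤ) ^ (n + 1) = 2 * 2 ^ n := by ring
    rw [e1] at h3 ⊢
    nlinarith
  have := le_of_mul_le_mul_left key hDpos
  exact_mod_cast this

/-- the exceptional set is bounded -/
lemma card_exc (hF : ringChar F ≠ 2) (D : ℕ) (g : F → ℤ) (hg : ∀ b, |g b| ≤ 1) :
    (univ.filter (fun y : F => (Fintype.card F : ℤ) < D * |∑ b : F, ch (b - y) * g b|)).card ≤
      D ^ 2 := by
  set K := univ.filter (fun y : F => (Fintype.card F : ℤ) < D * |∑ b : F, ch (b - y) * g b|)
    with hK
  have hq : (0 : ℤ) < Fintype.card F := by exact_mod_cast Fintype.card_pos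
  have h1 : (K.card : ℤ) * (Fintype.card F : ℤ) ^ 2 ≤
      D ^ 2 * ∑ y : F, (∑ b : F, ch (b - y) * g b) ^ 2 := by
    calc (K.card : ℤ) * (Fintype.card F : ℤ) ^ 2 = ∑ _y ∈ K, (Fintype.card F : ℤ) ^ 2 := by
          rw [sum_const, nsmul_eq_mul]
      _ ≤ ∑ y ∈ K, (D : ℤ) ^ 2 * (∑ b : F, ch (b - y) * g b) ^ 2 := by
          apply sum_le_sum
          intro y hy
          rw [hK, mem_filter] at hy
          have h2 := hy.2
          rw [← sq_abs (∑ b : F, ch (b - y) * g b), ← mul_pow]
          exact pow_le_pow_left₀ hq.le h2.le 2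
      _ ≤ ∑ y : F, (D : ℤ) ^ 2 * (∑ b : F, ch (b - y) * g b) ^ 2 := by
          apply sum_le_sum_of_subset_of_nonneg (subset_univ _)
          intro y _ _; positivity
      _ = D ^ 2 * ∑ y : F, (∑ b : F, ch (b - y) * g b) ^ 2 := by rw [mul_sum]
  have h2 := second_moment hF g hg
  have h3 : (K.card : ℤ) * (Fintype.card F : ℤ) ^ 2 ≤ D ^ 2 * (Fintype.card F : ℤ) ^ 2 :=
    h1.trans (mul_le_mul_of_nonneg_left h2 (by positivity))
  have h4 := le_of_mul_le_mul_right h3 (by positivity)
  exact_mod_cast h4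

/-- one step of the greedy choice -/
lemma extend_step (hF : ringChar F ≠ 2) {D n : ℕ} {c : ℕ → F} (hg : Good D n c)
    {s : ℕ → ℤ} (hs : ∀ i, s i = 1 ∨ s i = -1) (hD : 2 ^ (n + 1) ≤ D) (Bad : Finset F)
    (hq : 2 ^ (n + 1) * (Bad.card + 2 ^ n * D ^ 2 + n + 1) ≤ Fintype.card F) :
    ∃ y : F, y ∉ Bad ∧ (∀ i < n, ch (y - c i) = s i) ∧ Good D (n + 1) (Function.update c n y) := by
  set M := univ.filter (fun y : F => ∀ i < n, ch (y - c i) = s i) with hM
  have hMcard := card_match_lower hg hs hD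
  rw [← hM] at hMcard
  set Exc : Finset F := (range n).powerset.biUnion (fun A => univ.filter (fun y : F =>
    (Fintype.card F : ℤ) < D * |∑ b : F, ch (b - y) * ∏ i ∈ A, ch (b - c i)|)) with hExc
  have hExcCard : Exc.card ≤ 2 ^ n * D ^ 2 := by
    rw [hExc]
    refine card_biUnion_le.trans ?_
    calc ∑ A ∈ (range n).powerset, (univ.filter (fun y : F =>
            (Fintype.card F : ℤ) < D * |∑ b : F, ch (b - y) * ∏ i ∈ A, ch (b - c i)|)).card
        ≤ ∑ _A ∈ (range n).powerset, D ^ 2 :=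
          sum_le_sum (fun A _ => card_exc hF D _ (fun b => abs_prod_ch_le c A b))
      _ = 2 ^ n * D ^ 2 := by rw [sum_const, card_powerset, card_range, smul_eq_mul]
  have hlt : (Bad ∪ Exc).card < M.card := by
    have h1 : (Bad ∪ Exc).card ≤ Bad.card + 2 ^ n * D ^ 2 := (card_union_le _ _).trans (by omega)
    have h2 := hq.trans hMcard
    have h3 := Nat.le_of_mul_le_mul_left h2 (by positivity)
    omega
  obtain ⟨y, hyM, hyB⟩ := Finset.exists_mem_notMem_of_card_lt_card hlt
  rw [mem_union, not_or] at hyB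
  refine ⟨y, hyB.1, (mem_filter.mp hyM).2, ?_⟩
  intro A hA hne
  by_cases hn : n ∈ A
  · -- A = insert n A'
    have hA' : A.erase n ⊆ range n := by
      intro i hi
      rw [mem_erase] at hi
      have := hA hi.2
      rw [mem_range] at this ⊢
      omega
    have hW : WW (Function.update c n y) A =
        ∑ b : F, ch (b - y) * ∏ i ∈ A.erase n, ch (b - c i) := by
      unfold WW
      apply sum_congr rfl
      intro b _
      rw [← Finset.mul_prod_erase _ _ hn, Function.update_self]
      congr 1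
      apply prod_congr rfl
      intro i hi
      rw [Function.update_of_ne (mem_erase.mp hi).1]
    rw [hW]
    have hnot : y ∉ univ.filter (fun y : F =>
      (Fintype.card F : ℤ) < D * |∑ b : F, ch (b - y) * ∏ i ∈ A.erase n, ch (b - c i)|) := by
      intro hy
      apply hyB.2
      rw [hExc, mem_biUnion]
      exact ⟨A.erase n, mem_powerset.mpr hA', hy⟩
    rw [mem_filter, not_and] at hnot
    exact not_lt.mp (hnot (mem_univ _))
  · have hA' : A ⊆ range n := by
      intro i hi
      have := hA hi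
      rw [mem_range] at this ⊢
      have : i ≠ n := by rintro rfl; exact hn hi
      omega
    have hW : WW (Function.update c n y) A = WW c A := by
      apply WW_congr
      intro i hi
      rw [Function.update_of_ne]
      rintro rfl; exact hn hi
    rw [hW]
    exact hg A hA' hne

end KAvoid
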