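import Mathlib

set_option autoImplicit false

namespace KAvoid

open Finset

variable {F : Type} [Field F] [DecidableEq F]

/-- the ratios `(c - w) / (c' - w)`, `c ≠ c'` in `U \ {w}`, are pairwise different -/
def RG (U : Finset F) (w : F) : Prop :=
  ∀ c ∈ U, ∀ c' ∈ U, ∀ d ∈ U, ∀ d' ∈ U, c ≠ w → c' ≠ w → d ≠ w → d' ≠ w → c ≠ c' →
    (c - w) * (d' - w) = (d - w) * (c' - w) → c = d ∧ c' = d'

def RGall (U : Finset F) : Prop := ∀ w ∈ U, RG U w

omit [DecidableEq F] in
lemma lin_solution {c c' d d' b : F} (hcc : c ≠ c')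
    (h : (c - b) * (d' - b) = (d - b) * (c' - b)) (hn : ¬ (c = d ∧ c' = d')) :
    b = (c * d' - d * c') / (c + d' - d - c') := by
  have h1 : c * d' - d * c' = (c + d' - d - c') * b := by linear_combination h
  have h2 : c + d' - d - c' ≠ 0 := by
    intro h0
    rw [h0, zero_mul] at h1
    have h3 : (c - c') * (d - c) = 0 := by linear_combination h1 - c * h0
    rcases mul_eq_zero.mp h3 with h4 | h4
    · exact hcc (sub_eq_zero.mp h4)
    · have h5 : d = c := sub_eq_zero.mp h4
      apply hn
      refine ⟨h5.symm, ?_⟩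
      rw [h5] at h0
      linear_combination -h0
  rw [eq_div_iff h2, h1]; ring

/-- candidate values from linear equations at a new base point -/
def Bad1 (U : Finset F) : Finset F :=
  (U ×ˢ U ×ˢ U ×ˢ U).image (fun t => (t.1 * t.2.2.2 - t.2.2.1 * t.2.1) /
    (t.1 + t.2.2.2 - t.2.2.1 - t.2.1))

/-- candidate values from equations linear in the new point, old base point -/
def Bad2 (U : Finset F) : Finset F :=
  (U ×ˢ U ×ˢ U ×ˢ U).image (fun t => t.1 + (t.2.1 - t.1) * (t.2.2.1 - t.1) / (t.2.2.2 - t.1))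

lemma card_Bad1 (U : Finset F) : (Bad1 U).card ≤ U.card ^ 4 := by
  refine card_image_le.trans ?_
  rw [card_product, card_product, card_product]
  apply le_of_eq; ring

lemma card_Bad2 (U : Finset F) : (Bad2 U).card ≤ U.card ^ 4 := by
  refine card_image_le.trans ?_
  rw [card_product, card_product, card_product]
  apply le_of_eq; ring

lemma mem_Bad1 {U : Finset F} {c c' d d' b : F} (hc : c ∈ U) (hc' : c' ∈ U) (hd : d ∈ U)
    (hd' : d' ∈ U) (hcc : c ≠ c') (h : (c - b) * (d' - b) = (d - b) * (c' - b))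
    (hn : ¬ (c = d ∧ c' = d')) : b ∈ Bad1 U := by
  rw [Bad1, mem_image]
  refine ⟨(c, c', d, d'), ?_, (lin_solution hcc h hn).symm⟩
  simp [hc, hc', hd, hd']

lemma mem_Bad2 {U : Finset F} {w p1 p2 p3 y : F} (hw : w ∈ U) (h1 : p1 ∈ U) (h2 : p2 ∈ U)
    (h3 : p3 ∈ U) (hne : p1 ≠ w) (h : (y - w) * (p1 - w) = (p2 - w) * (p3 - w)) : y ∈ Bad2 U := by
  rw [Bad2, mem_image]
  refine ⟨(w, p2, p3, p1), ?_, ?_⟩
  · simp [hw, h1, h2, h3]
  · have : p1 - w ≠ 0 := sub_ne_zero.mpr hne
    simp only
    rw [← h]
    field_simp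
    ring

variable [Fintype F]

/-- candidates from squares -/
def Bad3 (U : Finset F) : Finset F :=
  (U ×ˢ U ×ˢ U).biUnion (fun t => univ.filter (fun y : F => (y - t.1) * (y - t.1) =
    (t.2.1 - t.1) * (t.2.2 - t.1)))

lemma card_sq_le (w K : F) : (univ.filter (fun y : F => (y - w) * (y - w) = K)).card ≤ 2 := by
  by_cases hne : (univ.filter (fun y : F => (y - w) * (y - w) = K)).Nonempty
  · obtain ⟨z, hz⟩ := hne
    rw [mem_filter] at hz
    have : univ.filter (fun y : F => (y - w) * (y - w) = K) ⊆ {z, w + w - z} := by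
      intro y hy
      rw [mem_filter] at hy
      rw [mem_insert, mem_singleton]
      have h : (y - z) * (y - (w + w - z)) = 0 := by linear_combination hy.2 - hz.2
      rcases mul_eq_zero.mp h with h1 | h1
      · left; exact sub_eq_zero.mp h1
      · right; exact sub_eq_zero.mp h1
    exact (card_le_card this).trans card_le_two
  · rw [not_nonempty_iff_eq_empty] at hne
    rw [hne]; simp

lemma card_Bad3 (U : Finset F) : (Bad3 U).card ≤ 2 * U.card ^ 3 := by
  unfold Bad3
  refine card_biUnion_le.trans ?_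
  calc ∑ t ∈ U ×ˢ U ×ˢ U, (univ.filter (fun y : F => (y - t.1) * (y - t.1) =
    (t.2.1 - t.1) * (t.2.2 - t.1))).card ≤ ∑ _t ∈ U ×ˢ U ×ˢ U, 2 :=
        sum_le_sum (fun t _ => card_sq_le _ _)
    _ = 2 * U.card ^ 3 := by
        rw [sum_const, card_product, card_product, smul_eq_mul]; ring

lemma mem_Bad3 {U : Finset F} {w p1 p2 y : F} (hw : w ∈ U) (h1 : p1 ∈ U) (h2 : p2 ∈ U)
    (h : (y - w) * (y - w) = (p1 - w) * (p2 - w)) : y ∈ Bad3 U := by
  rw [Bad3, mem_biUnion]
  refine ⟨(w, p1, p2), ?_, ?_⟩
  · simp [hw, h1, h2]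
  · simp [h]

/-- all bad values for the next point -/
def BadRG (U : Finset F) : Finset F := U ∪ (Bad1 U ∪ (Bad2 U ∪ Bad3 U))

lemma card_BadRG (U : Finset F) :
    (BadRG U).card ≤ U.card + (U.card ^ 4 + (U.card ^ 4 + 2 * U.card ^ 3)) := by
  unfold BadRG
  refine (card_union_le _ _).trans ?_
  gcongr
  refine (card_union_le _ _).trans ?_
  gcongr
  · exact card_Bad1 U
  refine (card_union_le _ _).trans ?_
  gcongr
  · exact card_Bad2 U
  · exact card_Bad3 U

lemma RGall_insert {U : Finset F} (hU : RGall U) {y : F} (hy : y ∉ BadRG U) :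
    RGall (insert y U) := by
  have hy0 : y ∉ U := fun h => hy (by unfold BadRG; exact mem_union_left _ h)
  have hy1 : y ∉ Bad1 U := fun h => hy (by
    unfold BadRG; exact mem_union_right _ (mem_union_left _ h))
  have hy2 : y ∉ Bad2 U := fun h => hy (by
    unfold BadRG; exact mem_union_right _ (mem_union_right _ (mem_union_left _ h)))
  have hy3 : y ∉ Bad3 U := fun h => hy (by
    unfold BadRG; exact mem_union_right _ (mem_union_right _ (mem_union_right _ h)))
  intro w hw c hc c' hc' d hd d' hd' hcw hc'w hdw hd'w hcc h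
  by_contra hn
  rcases mem_insert.mp hw with hwy | hwU
  · -- new base point
    subst hwy
    have e : ∀ z, z ∈ insert w U → z ≠ w → z ∈ U := by
      intro z hz hzw
      rcases mem_insert.mp hz with h1 | h1
      · exact absurd h1 hzw
      · exact h1
    exact hy1 (mem_Bad1 (e c hc hcw) (e c' hc' hc'w) (e d hd hdw) (e d' hd' hd'w) hcc h hn)
  · have hyw : y ≠ w := by rintro rfl; exact hy0 hwU
    have hyw' : y - w ≠ 0 := sub_ne_zero.mpr hyw
    rcases mem_insert.mp hc with rfl | hcU <;> rcases mem_insert.mp hc' with hc'y | hc'U <;>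
      rcases mem_insert.mp hd with hdy | hdU <;> rcases mem_insert.mp hd' with hd'y | hd'U
    -- c = y
    · exact hcc hc'y.symm
    · exact hcc hc'y.symm
    · exact hcc hc'y.symm
    · exact hcc hc'y.symm
    · -- c = d = d' = y
      subst hdy; subst hd'y
      have := mul_left_cancel₀ hyw' h
      exact hcc (sub_left_injective this)
    · -- c = d = y
      subst hdy
      have := mul_left_cancel₀ hyw' h
      exact hn ⟨rfl, (sub_left_injective this).symm⟩
    · -- c = d' = y
      subst hd'y
      exact hy3 (mem_Bad3 hwU hdU hc'U h)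
    · exact hy2 (mem_Bad2 hwU hd'U hdU hc'U hd'w h)
    -- c in U
    · -- c' = d = d' = y
      subst hc'y; subst hdy; subst hd'y
      have := mul_right_cancel₀ hyw' h
      exact hcc (sub_left_injective this)
    · -- c' = d = y
      subst hc'y; subst hdy
      exact hy3 (mem_Bad3 hwU hcU hd'U h.symm)
    · -- c' = d' = y
      subst hc'y; subst hd'y
      have := mul_right_cancel₀ hyw' h
      exact hn ⟨sub_left_injective this, rfl⟩
    · -- c' = y
      subst hc'y
      exact hy2 (mem_Bad2 hwU hdU hcU hd'U hdw (by linear_combination -h))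
    · -- d = d' = y
      subst hdy; subst hd'y
      have h' : (c - w) * (d' - w) = (c' - w) * (d' - w) := by linear_combination h
      have := mul_right_cancel₀ hyw' h'
      exact hcc (sub_left_injective this)
    · -- d = y
      subst hdy
      exact hy2 (mem_Bad2 hwU hc'U hcU hd'U hc'w (by linear_combination -h))
    · -- d' = y
      subst hd'y
      exact hy2 (mem_Bad2 hwU hcU hdU hc'U hcw (by linear_combination h))
    · exact hn (hU w hwU c hcU c' hc'U d hdU d' hd'U hcw hc'w hdw hd'w hcc h)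

open Classical in
/-- few points outside `U` are not generic for `U` -/
lemma card_not_RG (U : Finset F) :
    (univ.filter (fun b : F => ¬ RG U b)).card ≤ U.card ^ 4 := by
  refine le_trans (card_le_card ?_) (card_Bad1 U)
  intro b hb
  rw [mem_filter] at hb
  have h := hb.2
  unfold RG at h
  push Not at h
  obtain ⟨c, hc, c', hc', d, hd, d', hd', _, _, _, _, hcc, heq, hn⟩ := h
  exact mem_Bad1 hc hc' hd hd' hcc heq (fun h => hn h.1 h.2)

omit [DecidableEq F] [Fintype F] in
lemma RGall_empty : RGall (∅ : Finset F) := by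
  intro w hw; simp at hw

end KAvoid
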