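import Pool.Agent.KAvoid.Greedy
import Pool.Agent.KAvoid.RG

set_option autoImplicit false

namespace KAvoid

open Finset

lemma image_update {F : Type} [DecidableEq F] (c : ℕ → F) (n : ℕ) (y : F) :
    (range (n + 1)).image (Function.update c n y) = insert y ((range n).image c) := by
  ext z
  simp only [mem_image, mem_range, mem_insert]
  constructor
  · rintro ⟨i, hi, rfl⟩
    by_cases hin : i = n
    · left; rw [hin, Function.update_self]
    · right
      refine ⟨i, by omega, ?_⟩
      rw [Function.update_of_ne hin]
  · rintro (rfl | ⟨i, hi, rfl⟩)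
    · exact ⟨n, by omega, Function.update_self _ _ _⟩
    · exact ⟨i, by omega, Function.update_of_ne (by omega) _ _⟩

/-- existence of sequences with prescribed signs -/
theorem exists_seq (N D : ℕ) (hD : 2 ^ (N + 1) ≤ D) : ∀ n, n ≤ N → ∃ Q0 : ℕ,
    ∀ (F : Type) [Field F] [Fintype F] [DecidableEq F], ringChar F ≠ 2 →
      Q0 ≤ Fintype.card F → ∀ p : ℕ → ℕ → ℤ, (∀ i j, p i j = 1 ∨ p i j = -1) →
      ∃ c : ℕ → F, (∀ i < n, ∀ j < n, c i = c j → i = j) ∧
        (∀ j < n, ∀ i < j, ch (c j - c i) = p i j) ∧ Good D n c ∧
        RGall ((range n).image c) := by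
  intro n
  induction n with
  | zero =>
    intro _
    refine ⟨0, ?_⟩
    intro F _ _ _ _ _ p _
    refine ⟨fun _ => 0, ?_, ?_, ?_, ?_⟩
    · intro i hi; omega
    · intro i hi; omega
    · intro A hA hne
      rw [range_zero, subset_empty] at hA
      rw [hA] at hne
      exact absurd hne (by simp)
    · simp only [range_zero, image_empty]
      exact RGall_empty
  | succ n ih =>
    intro hn
    obtain ⟨Q0, hQ0⟩ := ih (by omega)
    refine ⟨max Q0 (2 ^ (n + 1) * ((n + (n ^ 4 + (n ^ 4 + 2 * n ^ 3))) + 2 ^ n * D ^ 2 + n + 1)), ?_⟩
    intro F _ _ _ hF hq p hp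
    obtain ⟨c, hinj, hpat, hgood, hRG⟩ := hQ0 F hF ((le_max_left _ _).trans hq) p hp
    set U := (range n).image c with hU
    have hUcard : U.card ≤ n := by
      rw [hU]; exact card_image_le.trans (by rw [card_range])
    have hBad : (BadRG U).card ≤ n + (n ^ 4 + (n ^ 4 + 2 * n ^ 3)) := by
      refine (card_BadRG U).trans ?_
      gcongr
    obtain ⟨y, hyB, hyp, hyg⟩ := extend_step hF hgood (s := fun i => p i n) (fun i => hp i n)
      (le_trans (Nat.pow_le_pow_right (by norm_num) (by omega)) hD) (BadRG U) (by
        refine le_trans ?_ ((le_max_right _ _).trans hq)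
        gcongr)
    have hyU : y ∉ U := fun h => hyB (by unfold BadRG; exact mem_union_left _ h)
    refine ⟨Function.update c n y, ?_, ?_, hyg, ?_⟩
    · intro i hi j hj hij
      by_cases hin : i = n <;> by_cases hjn : j = n
      · omega
      · exfalso
        rw [hin, Function.update_self, Function.update_of_ne hjn] at hij
        apply hyU
        rw [hU, mem_image]
        exact ⟨j, mem_range.mpr (by omega), hij.symm⟩
      · exfalso
        rw [hjn, Function.update_self, Function.update_of_ne hin] at hij
        apply hyU
        rw [hU, mem_image]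
        exact ⟨i, mem_range.mpr (by omega), hij⟩
      · rw [Function.update_of_ne hin, Function.update_of_ne hjn] at hij
        exact hinj i (by omega) j (by omega) hij
    · intro j hj i hij
      by_cases hjn : j = n
      · subst hjn
        rw [Function.update_self, Function.update_of_ne (by omega)]
        exact hyp i hij
      · rw [Function.update_of_ne hjn, Function.update_of_ne (by omega)]
        exact hpat j (by omega) i hij
    · rw [image_update]
      exact RGall_insert hRG hyB

end KAvoid
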