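import Pool.Agent.KAvoid.OddFinal
import Pool.Agent.KAvoid.EvenMain

set_option autoImplicit false

namespace KAvoid

/-- the spectrum is complete in an absolute range -/
theorem avoid_main : ∃ K : ℕ, 3 ≤ K ∧ ∀ (F : Type) [Field F] [Fintype F] [DecidableEq F] (k m : ℕ),
    K ≤ k → k + K ≤ Fintype.card F + 1 → m ≤ Fintype.card F ^ 2 + Fintype.card F + 1 →
    AvoidC F k m := by
  obtain ⟨K, hK⟩ := avoidC_odd
  obtain ⟨K', hK1, hK2⟩ : ∃ K' : ℕ, K ≤ K' ∧ 1024 ≤ K' :=
    ⟨max K 1024, le_max_left _ _, le_max_right _ _⟩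
  refine ⟨K', by omega, ?_⟩
  intro F _ _ _ k m h1 h2 hm
  refine avoidC_all (K := K') (by omega) ?_ h1 h2 hm
  intro k m hk hk2 hm1 hm2
  by_cases hF : ringChar F = 2
  · have : CharP F 2 := ringChar.of_eq hF
    have hq : 1024 ≤ Fintype.card F := by omega
    have hk3 : 130 ≤ k := by omega
    exact avoidC_even F hq hk3 hk2 hm1 hm2
  · exact hK F hF k m (by omega) hk2 hm1 hm2

end KAvoid
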