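import Mathlib

set_option autoImplicit false

namespace KAvoid

open Finset

variable {F : Type} [Field F] [Fintype F] [DecidableEq F]

/-- the quadratic character as an integer valued function -/
def ch (x : F) : ℤ := quadraticChar F x

lemma ch_zero : ch (0 : F) = 0 := quadraticChar_zero

lemma ch_mul (x y : F) : ch (x * y) = ch x * ch y := by
  unfold ch; rw [map_mul]

lemma ch_one : ch (1 : F) = 1 := by
  unfold ch; rw [map_one]

lemma ch_cases {x : F} (hx : x ≠ 0) : ch x = 1 ∨ ch x = -1 := quadraticChar_dichotomy hx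

lemma ch_eq_zero {x : F} : ch x = 0 ↔ x = 0 := quadraticChar_eq_zero_iff

lemma ch_mul_self {x : F} (hx : x ≠ 0) : ch x * ch x = 1 := by
  rcases ch_cases hx with h | h <;> rw [h] <;> rfl

lemma ch_inv (x : F) : ch x⁻¹ = ch x := by
  by_cases hx : x = 0
  · rw [hx, inv_zero]
  · have h1 : ch x⁻¹ * ch x = 1 := by rw [← ch_mul, inv_mul_cancel₀ hx, ch_one]
    rcases ch_cases hx with h | h <;> rw [h] at h1 ⊢ <;> omega

lemma abs_ch_le (x : F) : |ch x| ≤ 1 := by
  by_cases hx : x = 0
  · rw [hx, ch_zero]; simp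
  · rcases ch_cases hx with h | h <;> rw [h] <;> simp

lemma ch_sum (hF : ringChar F ≠ 2) : ∑ x : F, ch x = 0 := quadraticChar_sum_zero hF

lemma ch_sum_sub (hF : ringChar F ≠ 2) (c : F) : ∑ y : F, ch (c - y) = 0 := by
  rw [← ch_sum hF]
  exact Fintype.sum_equiv (Equiv.subLeft c) _ _ (fun y => rfl)

lemma ch_corr_self (b : F) : ∑ y : F, ch (b - y) * ch (b - y) = (Fintype.card F : ℤ) - 1 := by
  have h : ∀ y : F, ch (b - y) * ch (b - y) = 1 - if y = b then 1 else 0 := by
    intro y
    by_cases hy : y = b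
    · rw [hy, sub_self, ch_zero]; simp
    · rw [ch_mul_self (sub_ne_zero.mpr (Ne.symm hy)), if_neg hy]; simp
  simp_rw [h]
  rw [sum_sub_distrib]
  simp

lemma ch_corr (hF : ringChar F ≠ 2) {b b' : F} (h : b ≠ b') :
    ∑ y : F, ch (b - y) * ch (b' - y) = -1 := by
  have e1 : ∑ y : F, ch (b - y) * ch (b' - y) = ∑ z : F, ch z * ch (z + (b' - b)) := by
    apply Fintype.sum_equiv (Equiv.subLeft b)
    intro y
    simp only [Equiv.subLeft_apply]
    congr 2
    ring
  rw [e1]
  set c := b' - b with hc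
  have hc0 : c ≠ 0 := sub_ne_zero.mpr (Ne.symm h)
  have e2 : ∑ z : F, ch z * ch (z + c) = ∑ z ∈ univ.erase (0 : F), ch (1 + c * z⁻¹) := by
    rw [← Finset.add_sum_erase univ _ (mem_univ (0 : F)), ch_zero, zero_mul, zero_add]
    apply sum_congr rfl
    intro z hz
    have hz0 : z ≠ 0 := (mem_erase.mp hz).1
    have : z + c = z * (1 + c * z⁻¹) := by field_simp
    rw [this, ch_mul, ← mul_assoc, ch_mul_self hz0, one_mul]
  have e3 : ∑ z ∈ univ.erase (0 : F), ch (1 + c * z⁻¹) = ∑ w ∈ univ.erase (1 : F), ch w := by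
    apply sum_bij (fun z _ => 1 + c * z⁻¹)
    · intro z hz
      have hz0 : z ≠ 0 := (mem_erase.mp hz).1
      rw [mem_erase]
      refine ⟨?_, mem_univ _⟩
      intro h1
      have : c * z⁻¹ = 0 := by linear_combination h1
      rcases mul_eq_zero.mp this with h2 | h2
      · exact hc0 h2
      · exact hz0 (inv_eq_zero.mp h2)
    · intro z _ w _ hzw
      have : z⁻¹ = w⁻¹ := mul_left_cancel₀ hc0 (add_left_cancel hzw)
      exact inv_injective this
    · intro w hw
      have hw1 : w ≠ 1 := (mem_erase.mp hw).1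
      have hw2 : w - 1 ≠ 0 := sub_ne_zero.mpr hw1
      refine ⟨c / (w - 1), ?_, ?_⟩
      · rw [mem_erase]
        exact ⟨div_ne_zero hc0 hw2, mem_univ _⟩
      · field_simp; ring
    · intro z _; rfl
  have e4 : ch (1 : F) + ∑ w ∈ univ.erase (1 : F), ch w = 0 := by
    rw [Finset.add_sum_erase univ _ (mem_univ (1 : F)), ch_sum hF]
  rw [e2, e3]
  rw [ch_one] at e4
  linarith

/-- second moment -/
lemma second_moment (hF : ringChar F ≠ 2) (g : F → ℤ) (hg : ∀ b, |g b| ≤ 1) :
    ∑ y : F, (∑ b : F, ch (b - y) * g b) ^ 2 ≤ (Fintype.card F : ℤ) ^ 2 := by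
  have e1 : ∑ y : F, (∑ b : F, ch (b - y) * g b) ^ 2 =
      ∑ b : F, ∑ b' : F, g b * g b' * ∑ y : F, ch (b - y) * ch (b' - y) := by
    simp_rw [pow_two, sum_mul_sum, mul_sum]
    rw [sum_comm]
    apply sum_congr rfl
    intro b _
    rw [sum_comm]
    apply sum_congr rfl
    intro b' _
    apply sum_congr rfl
    intro y _
    ring
  have e2 : ∀ b b' : F, ∑ y : F, ch (b - y) * ch (b' - y) =
      (if b = b' then (Fintype.card F : ℤ) else 0) - 1 := by
    intro b b'
    by_cases h : b = b'
    · subst h; rw [ch_corr_self, if_pos rfl]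
    · rw [ch_corr hF h, if_neg h]; ring
  rw [e1]
  simp_rw [e2]
  have e3 : ∑ b : F, ∑ b' : F, g b * g b' * ((if b = b' then (Fintype.card F : ℤ) else 0) - 1) =
      (Fintype.card F : ℤ) * ∑ b : F, g b ^ 2 - (∑ b : F, g b) ^ 2 := by
    simp_rw [mul_sub, mul_one, sum_sub_distrib]
    congr 1
    · rw [mul_sum]
      apply sum_congr rfl
      intro b _
      rw [Finset.sum_eq_single b]
      · rw [if_pos rfl]; ring
      · intro b' _ hb'
        rw [if_neg (Ne.symm hb'), mul_zero]
      · intro h; exact absurd (mem_univ b) h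
    · rw [pow_two, sum_mul_sum]
  rw [e3]
  have h1 : ∑ b : F, g b ^ 2 ≤ Fintype.card F := by
    calc ∑ b : F, g b ^ 2 ≤ ∑ _b : F, (1 : ℤ) := by
          apply sum_le_sum
          intro b _
          have := hg b
          rw [← sq_abs]
          nlinarith [abs_nonneg (g b)]
      _ = Fintype.card F := by simp
  have h2 : 0 ≤ (∑ b : F, g b) ^ 2 := sq_nonneg _
  have h3 : (0 : ℤ) ≤ Fintype.card F := by positivity
  nlinarith

/-- number of `x` with a given nonzero character value -/
lemma card_ch_pos (hF : ringChar F ≠ 2) :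
    2 * (univ.filter (fun x : F => ch x = 1)).card + 1 = Fintype.card F ∧
    2 * (univ.filter (fun x : F => ch x = -1)).card + 1 = Fintype.card F := by
  have h1 : ∀ x : F, (1 : ℤ) = (if ch x = 1 then 1 else 0) + (if ch x = -1 then 1 else 0) +
      (if x = 0 then 1 else 0) := by
    intro x
    by_cases hx : x = 0
    · rw [hx, ch_zero]; simp
    · rcases ch_cases hx with h | h <;> rw [h] <;> simp [hx]
  have h2 : ∀ x : F, ch x = (if ch x = 1 then 1 else 0) - (if ch x = -1 then 1 else 0) := by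
    intro x
    by_cases hx : x = 0
    · rw [hx, ch_zero]; simp
    · rcases ch_cases hx with h | h <;> rw [h] <;> simp
  have s1 : (Fintype.card F : ℤ) = (univ.filter (fun x : F => ch x = 1)).card +
      (univ.filter (fun x : F => ch x = -1)).card + 1 := by
    have : (Fintype.card F : ℤ) = ∑ _x : F, (1 : ℤ) := by simp
    rw [this]
    have h1' : ∑ _x : F, (1 : ℤ) = ∑ x : F, ((if ch x = 1 then 1 else 0) +
      (if ch x = -1 then 1 else 0) + (if x = 0 then 1 else 0)) :=
      sum_congr rfl (fun x _ => h1 x)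
    rw [h1', sum_add_distrib, sum_add_distrib]
    simp
  have s2 : (0 : ℤ) = (univ.filter (fun x : F => ch x = 1)).card -
      (univ.filter (fun x : F => ch x = -1)).card := by
    rw [← ch_sum hF]
    have h2' : ∑ x : F, ch x = ∑ x : F, ((if ch x = 1 then 1 else 0) -
      (if ch x = -1 then 1 else 0)) := sum_congr rfl (fun x _ => h2 x)
    rw [h2', sum_sub_distrib]
    simp
  omega

/-- number of `a` with `ch ((a - l1) (a - l2)) = -1` -/
lemma card_ch_two (hF : ringChar F ≠ 2) {l1 l2 : F} (h : l1 ≠ l2) :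
    2 * (univ.filter (fun a : F => ch (a - l1) * ch (a - l2) = -1)).card + 1 =
      Fintype.card F := by
  have hm : ∀ a : F, ch (a - l1) * ch (a - l2) = ch (l1 - a) * ch (l2 - a) := by
    intro a
    have e1 : a - l1 = (-1) * (l1 - a) := by ring
    have e2 : a - l2 = (-1) * (l2 - a) := by ring
    rw [e1, e2, ch_mul, ch_mul]
    have : ch (-1 : F) * ch (-1 : F) = 1 := ch_mul_self (by simp)
    linear_combination (ch (l1 - a) * ch (l2 - a)) * this
  have hc := ch_corr hF h
  have h1 : ∀ x : F, (1 : ℤ) = (if ch (x - l1) * ch (x - l2) = 1 then 1 else 0) +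
      (if ch (x - l1) * ch (x - l2) = -1 then 1 else 0) +
      (if x = l1 then 1 else 0) + (if x = l2 then 1 else 0) := by
    intro x
    by_cases hx : x = l1
    · rw [hx, sub_self, ch_zero]; simp [h]
    · by_cases hx2 : x = l2
      · rw [hx2, sub_self, ch_zero]; simp [Ne.symm h]
      · rcases ch_cases (sub_ne_zero.mpr hx) with h3 | h3 <;>
        rcases ch_cases (sub_ne_zero.mpr hx2) with h4 | h4 <;> rw [h3, h4] <;> simp [hx, hx2]
  have h2 : ∀ x : F, ch (x - l1) * ch (x - l2) =
      (if ch (x - l1) * ch (x - l2) = 1 then 1 else 0) -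
      (if ch (x - l1) * ch (x - l2) = -1 then 1 else 0) := by
    intro x
    by_cases hx : x = l1
    · rw [hx, sub_self, ch_zero]; simp
    · by_cases hx2 : x = l2
      · rw [hx2, sub_self, ch_zero]; simp
      · rcases ch_cases (sub_ne_zero.mpr hx) with h3 | h3 <;>
        rcases ch_cases (sub_ne_zero.mpr hx2) with h4 | h4 <;> rw [h3, h4] <;> simp
  have s1 : (Fintype.card F : ℤ) =
      (univ.filter (fun x : F => ch (x - l1) * ch (x - l2) = 1)).card +
      (univ.filter (fun x : F => ch (x - l1) * ch (x - l2) = -1)).card + 1 + 1 := by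
    have : (Fintype.card F : ℤ) = ∑ _x : F, (1 : ℤ) := by simp
    rw [this, sum_congr rfl (fun x _ => h1 x), sum_add_distrib, sum_add_distrib, sum_add_distrib]
    simp
  have s2 : ∑ x : F, ch (x - l1) * ch (x - l2) = -1 := by
    rw [← hc]
    exact sum_congr rfl (fun x _ => hm x)
  rw [sum_congr rfl (fun x _ => h2 x), sum_sub_distrib] at s2
  simp only [sum_boole] at s2
  omega

end KAvoid
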