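import Pool.Agent.KAvoid.OddMain

set_option autoImplicit false

namespace KAvoid

open Finset

/-- the two extra structure lines -/
lemma hitS_extra {F : Type} [Field F] [Fintype F] [DecidableEq F] {L V : Finset F}
    {l1 l2 u : F} (h12 : l1 ≠ l2) (hu : u ∉ V) (a b : F) :
    (hitS ((L ×ˢ V) ∪ {(l1, u), (l2, u)}) a b).card = (hitS (L ×ˢ V) a b).card +
      ((if ch ((u - b) * (a - l1)) = 1 then 1 else 0) +
        (if ch ((u - b) * (a - l2)) = 1 then 1 else 0)) := by
  have hdis : Disjoint (L ×ˢ V) {(l1, u), (l2, u)} := by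
    rw [disjoint_left]
    rintro ⟨x, y⟩ h1 h2
    rw [mem_product] at h1
    rw [mem_insert, mem_singleton] at h2
    have hy : y ∈ V := h1.2
    rcases h2 with h2 | h2
    · rw [(Prod.mk.inj h2).2] at hy; exact hu hy
    · rw [(Prod.mk.inj h2).2] at hy; exact hu hy
  unfold hitS
  rw [filter_union, card_union_of_disjoint (disjoint_filter_filter hdis)]
  congr 1
  rw [card_filter, sum_insert, sum_singleton]
  rw [mem_singleton]
  intro h
  exact h12 (Prod.mk.inj h).1

theorem avoidC_odd : ∃ K : ℕ, ∀ (F : Type) [Field F] [Fintype F] [DecidableEq F],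
    ringChar F ≠ 2 → ∀ k m : ℕ, K ≤ k → 2 * k ≤ Fintype.card F + 1 →
      (k - 1) * Fintype.card F ≤ m → m ≤ (k + 1) * Fintype.card F → AvoidC F k m := by
  obtain ⟨h, Q1, hh, hVU⟩ := exists_VU
  obtain ⟨Q2, hLam⟩ := exists_Lam
  refine ⟨Q1 + Q2 + 8 * ((2 * h + 1) ^ 4 + (10 * h + 2) * (10 * h + 2) + 5 * h + 20), ?_⟩
  intro F _ _ _ hF k m hk hk2 hm1 hm2
  obtain ⟨V, u, huV, hVcard, hV1, hRGU, hV3⟩ := hVU F hF (by omega)
  obtain ⟨L, hLcard, hL0⟩ := hLam F hF (by omega)
  set q := Fintype.card F with hq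
  obtain ⟨hsq, hnsq⟩ := card_ch_pos hF
  set U := insert u V with hU
  have hUcard : U.card = 2 * h + 1 := by rw [hU, card_insert_of_notMem huV, hVcard]
  have hVsub : V ⊆ U := subset_insert _ _
  classical
  set Fo : Finset F := univ.filter (fun b => ¬ (64 ≤ |EE V b| ∧ RG U b)) with hFodef
  have hFo : ∀ b, (64 ≤ |EE V b| ∧ RG U b) ∨ (b ∈ Fo ∧ b ∉ U) := by
    intro b
    by_cases hb : 64 ≤ |EE V b| ∧ RG U b
    · exact Or.inl hb
    · right
      refine ⟨by rw [hFodef, mem_filter]; exact ⟨mem_univ _, hb⟩, ?_⟩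
      intro hbU
      exact hb ⟨hV1 b hbU, hRGU b hbU⟩
  have hFocard : Fo.card ≤ (univ.filter (fun b : F => |∑ c ∈ V, ch (c - b)| < 64)).card +
      (2 * h + 1) ^ 4 := by
    have hsub : Fo ⊆ (univ.filter (fun b : F => |∑ c ∈ V, ch (c - b)| < 64)) ∪
        (univ.filter (fun b : F => ¬ RG U b)) := by
      intro b hb
      rw [hFodef, mem_filter] at hb
      rw [mem_union, mem_filter, mem_filter]
      by_cases h1 : 64 ≤ |EE V b|
      · right
        exact ⟨mem_univ _, fun h2 => hb.2 ⟨h1, h2⟩⟩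
      · left
        exact ⟨mem_univ _, not_le.mp h1⟩
    refine (card_le_card hsub).trans ((card_union_le _ _).trans ?_)
    refine Nat.add_le_add_left ?_ _
    have := card_not_RG U
    rw [hUcard] at this
    convert this using 2
  set sm := (univ.filter (fun b : F => |∑ c ∈ V, ch (c - b)| < 64)).card with hsm
  have hsq' : 2 * (sq1 F).card + 1 = q := hsq
  set Q := (sq1 F).card with hQ
  -- two different slopes
  obtain ⟨l1, hl1, l2, hl2, h12⟩ : ∃ l1 ∈ L, ∃ l2 ∈ L, l1 ≠ l2 := by
    have : 1 < L.card := by omega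
    obtain ⟨l1, hl1, l2, hl2, h12⟩ := one_lt_card.mp this
    exact ⟨l1, hl1, l2, hl2, h12⟩
  set W4 := (2 * h + 1) ^ 4 with hW4
  set W2 := (10 * h + 2) * (10 * h + 2) with hW2
  -- division with remainder
  have hqpos : 0 < q := by omega
  obtain ⟨j, ρ, hmj, hρ⟩ : ∃ j ρ, m = j * q + ρ ∧ ρ < q :=
    ⟨m / q, m % q, (by rw [mul_comm]; exact (Nat.div_add_mod m q).symm), Nat.mod_lt _ hqpos⟩
  have hj1 : k - 1 ≤ j := by
    by_contra hcon
    have h1 : (j + 1) * q ≤ (k - 1) * q := Nat.mul_le_mul_right _ (by omega)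
    rw [add_mul, one_mul] at h1
    omega
  have hj2 : j ≤ k ∨ (j = k + 1 ∧ ρ = 0) := by
    by_cases hc : j ≤ k
    · exact Or.inl hc
    · right
      have h1 : (k + 1) * q ≤ j * q := Nat.mul_le_mul_right _ (by omega)
      have h2 : ρ = 0 := by omega
      refine ⟨?_, h2⟩
      by_contra hcon
      have h3 : (k + 2) * q ≤ j * q := Nat.mul_le_mul_right _ (by omega)
      have h4 : (k + 2) * q = (k + 1) * q + q := by ring
      omega
  have hhq : h * q = 2 * (h * Q) + h := by rw [← hsq']; ring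
  by_cases hmid : q ≤ 4 * ρ ∧ 4 * ρ ≤ 3 * q
  · -- the plain structure
    have hjk : j ≤ k := by
      rcases hj2 with h' | h'
      · exact h'
      · omega
    set Ed := L ×ˢ V with hEd
    have hEdcard : Ed.card = 10 * h := by rw [hEd, card_product, hLcard, hVcard]; ring
    have hP1 := Pst_card_le Ed
    have hP2 := le_Pst_card Ed
    rw [hEdcard, ← hQ] at hP1 hP2
    have e1 : 10 * h * Q = 10 * (h * Q) := by ring
    have e2 : 10 * h * (10 * h) ≤ W2 := by rw [hW2]; gcongr <;> omega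
    rw [e1] at hP1 hP2
    have e3 : j * q = (j - 5 * h) * q + 5 * (h * q) := by
      have : j = (j - 5 * h) + 5 * h := by omega
      conv_lhs => rw [this]
      ring
    refine odd_core (M := m - (j - 5 * h) * q - (Pst Ed).card) (t := j - 5 * h) hF hh hLcard
      hL0 hVcard hVsub (Ed := Ed) (A0 := ∅) (Fo := Fo) (l1 := l1) ?_ (by omega) ?_ ?_ hl1
      (by simp) hFo ?_ ?_ ?_ hk2 ?_ ?_ ?_ ?_
    · intro e he
      rw [hEd, mem_product] at he
      exact ⟨he.1, hVsub he.2⟩
    · intro a b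
      exact ⟨le_rfl, Nat.le_add_right _ _⟩
    · intro a b _ _
      rw [if_neg (notMem_empty a), add_zero]
    · omega
    · omega
    · omega
    · omega
    · rw [card_empty, ← hq]; omega
    · omega
    · omega
  · -- the structure with two extra lines
    obtain ⟨d, hd, hdj⟩ : ∃ d, (d = 1 ∧ 3 * q < 4 * ρ ∨ d = 2 ∧ 4 * ρ < q) ∧ j - d ≤ k := by
      by_cases hc : 4 * ρ < q
      · exact ⟨2, Or.inr ⟨rfl, hc⟩, by omega⟩
      · exact ⟨1, Or.inl ⟨rfl, by omega⟩, by omega⟩
    set Ed := (L ×ˢ V) ∪ {(l1, u), (l2, u)} with hEd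
    have hEdcard : Ed.card = 10 * h + 2 := by
      rw [hEd, card_union_of_disjoint]
      · rw [card_product, hLcard, hVcard, card_pair]
        · ring
        · intro h'
          exact h12 (Prod.mk.inj h').1
      · rw [disjoint_left]
        rintro ⟨x, y⟩ h1 h2
        rw [mem_product] at h1
        rw [mem_insert, mem_singleton] at h2
        have hy : y ∈ V := h1.2
        rcases h2 with h2 | h2
        · rw [(Prod.mk.inj h2).2] at hy; exact huV hy
        · rw [(Prod.mk.inj h2).2] at hy; exact huV hy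
    have hP1 := Pst_card_le Ed
    have hP2 := le_Pst_card Ed
    rw [hEdcard, ← hQ] at hP1 hP2
    rw [← hW2] at hP2
    have e1 : (10 * h + 2) * Q = 10 * (h * Q) + 2 * Q := by ring
    rw [e1] at hP1 hP2
    have hd1 : j - d + d = j := by omega
    have e3 : j * q = (j - d - 5 * h) * q + 5 * (h * q) + d * q := by
      have : j = (j - d - 5 * h) + 5 * h + d := by omega
      conv_lhs => rw [this]
      ring
    set A0 := univ.filter (fun a : F => ch (a - l1) * ch (a - l2) = -1) with hA0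
    have hA0card : 2 * A0.card + 1 = q := card_ch_two hF h12
    refine odd_core (M := m - (j - d - 5 * h) * q - (Pst Ed).card - A0.card)
      (t := j - d - 5 * h) hF hh hLcard
      hL0 hVcard hVsub (Ed := Ed) (A0 := A0) (Fo := Fo) (l1 := l1) ?_ (by omega) ?_ ?_ hl1
      ?_ hFo ?_ ?_ ?_ hk2 ?_ ?_ ?_ ?_
    · intro e he
      rw [hEd, mem_union, mem_product, mem_insert, mem_singleton] at he
      rcases he with he | rfl | rfl
      · exact ⟨he.1, hVsub he.2⟩
      · exact ⟨hl1, mem_insert_self _ _⟩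
      · exact ⟨hl2, mem_insert_self _ _⟩
    · intro a b
      rw [hEd, hitS_extra h12 huV]
      split_ifs <;> omega
    · intro a b ha hb
      rw [hEd, hitS_extra h12 huV]
      have hbu : u - b ≠ 0 := by
        intro h'
        apply hb
        rw [← sub_eq_zero.mp h']
        exact mem_insert_self _ _
      have ha1 : a - l1 ≠ 0 := by
        intro h'; apply ha; rw [sub_eq_zero.mp h']; exact hl1
      have ha2 : a - l2 ≠ 0 := by
        intro h'; apply ha; rw [sub_eq_zero.mp h']; exact hl2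
      have hmem : a ∈ A0 ↔ ch (a - l1) * ch (a - l2) = -1 := by
        rw [hA0, mem_filter]; simp
      simp only [hmem, ch_mul]
      rcases ch_cases hbu with h1 | h1 <;> rcases ch_cases ha1 with h2 | h2 <;>
        rcases ch_cases ha2 with h3 | h3 <;> rw [h1, h2, h3] <;> norm_num <;> omega
    · rw [hA0, mem_filter, sub_self, ch_zero, zero_mul]
      norm_num
    · omega
    · omega
    · omega
    · omega
    · rw [← hq]; rcases hd with ⟨rfl, hd⟩ | ⟨rfl, hd⟩ <;> omega
    · rcases hd with ⟨rfl, hd⟩ | ⟨rfl, hd⟩ <;> omega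
    · rw [← hq]; rcases hd with ⟨rfl, hd⟩ | ⟨rfl, hd⟩ <;> omega

end KAvoid
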