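import Pool.Agent.KAvoid.Coord

set_option autoImplicit false

namespace KAvoid

open Finset

variable {F : Type} [Field F] [Fintype F] [DecidableEq F]

theorem AvoidC.compl {k m : ℕ} (h : AvoidC F k m) (hk : k ≤ Fintype.card F + 1) :
    AvoidC F (Fintype.card F + 1 - k) (Fintype.card F ^ 2 + Fintype.card F + 1 - m) := by
  obtain ⟨P, A, o, ho, hm, h1, h2, h3⟩ := h
  set q := Fintype.card F with hq
  have hPc : Pᶜ.card + P.card = q ^ 2 := by
    rw [Finset.card_compl, Fintype.card_prod, ← hq]
    have : P.card ≤ q * q := by
      have := P.card_le_univ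
      rwa [Fintype.card_prod] at this
    rw [pow_two]; omega
  have hAc : Aᶜ.card + A.card = q := by
    rw [Finset.card_compl, ← hq]
    have : A.card ≤ q := A.card_le_univ
    omega
  refine ⟨Pᶜ, Aᶜ, 1 - o, by omega, ?_, ?_, ?_, ?_⟩
  · omega
  · intro a b
    have e : (univ.filter (fun x : F => (x, a * x + b) ∈ Pᶜ)).card +
        (univ.filter (fun x : F => (x, a * x + b) ∈ P)).card = q := by
      have := Finset.card_filter_add_card_filter_not (s := (univ : Finset F))
        (fun x : F => (x, a * x + b) ∈ P)
      simp only [Finset.mem_compl]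
      rw [add_comm, this, Finset.card_univ]
    have := h1 a b
    by_cases ha : a ∈ A
    · rw [if_pos ha] at this
      rw [if_neg (by simpa using ha)]
      omega
    · rw [if_neg ha] at this
      rw [if_pos (by simpa using ha)]
      omega
  · intro x
    have e : (univ.filter (fun y : F => (x, y) ∈ Pᶜ)).card +
        (univ.filter (fun y : F => (x, y) ∈ P)).card = q := by
      have := Finset.card_filter_add_card_filter_not (s := (univ : Finset F))
        (fun y : F => (x, y) ∈ P)
      simp only [Finset.mem_compl]
      rw [add_comm, this, Finset.card_univ]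
    have := h2 x
    omega
  · omega

omit [Field F] [Fintype F] in
/-- column sizes -/
lemma exists_sizes (q k : ℕ) (hk : 2 ≤ k) (hkq : k + 2 ≤ q) (X : Finset F) :
    2 ≤ X.card → ∀ m : ℕ, m ≤ X.card * q →
      ∃ s : F → ℕ, (∀ x ∈ X, s x ≤ q ∧ s x ≠ k) ∧ ∑ x ∈ X, s x = m := by
  induction X using Finset.induction_on with
  | empty => intro h; simp at h
  | insert x X hx ih =>
    intro hX m hm
    rw [card_insert_of_notMem hx] at hX hm
    by_cases h2 : 2 ≤ X.card
    · by_cases hmq : q ≤ m
      · obtain ⟨s, hs, hsum⟩ := ih h2 (m - q) (by rw [add_mul] at hm; omega)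
        refine ⟨fun y => if y = x then q else s y, ?_, ?_⟩
        · intro y hy
          by_cases hyx : y = x
          · simp only [hyx, if_true]; omega
          · simp only [if_neg hyx]
            exact hs y (by simpa [hyx] using hy)
        · rw [sum_insert hx]
          simp only [if_true]
          have : ∑ y ∈ X, (if y = x then q else s y) = ∑ y ∈ X, s y := by
            apply sum_congr rfl
            intro y hy
            rw [if_neg]
            rintro rfl; exact hx hy
          rw [this, hsum]; omega
      · obtain ⟨s, hs, hsum⟩ := ih h2 m (by nlinarith)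
        refine ⟨fun y => if y = x then 0 else s y, ?_, ?_⟩
        · intro y hy
          by_cases hyx : y = x
          · simp only [hyx, if_true]; omega
          · simp only [if_neg hyx]
            exact hs y (by simpa [hyx] using hy)
        · rw [sum_insert hx]
          simp only [if_true]
          have : ∑ y ∈ X, (if y = x then 0 else s y) = ∑ y ∈ X, s y := by
            apply sum_congr rfl
            intro y hy
            rw [if_neg]
            rintro rfl; exact hx hy
          rw [this, hsum]; omega
    · have h1 : X.card = 1 := by omega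
      obtain ⟨z, rfl⟩ := card_eq_one.mp h1
      have hxz : x ≠ z := by simpa using hx
      rw [card_singleton] at hm
      have key : ∃ s1 s2 : ℕ, s1 ≤ q ∧ s2 ≤ q ∧ s1 ≠ k ∧ s2 ≠ k ∧ s1 + s2 = m := by
        by_cases c1 : m ≤ q
        · by_cases c2 : m = k
          · exact ⟨k - 1, 1, by omega, by omega, by omega, by omega, by omega⟩
          · exact ⟨m, 0, by omega, by omega, by omega, by omega, by omega⟩
        · by_cases c2 : m - q = k
          · exact ⟨q - 1, k + 1, by omega, by omega, by omega, by omega, by omega⟩
          · exact ⟨q, m - q, by omega, by omega, by omega, by omega, by omega⟩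
      obtain ⟨s1, s2, a1, a2, a3, a4, a5⟩ := key
      refine ⟨fun y => if y = x then s1 else s2, ?_, ?_⟩
      · intro y _
        by_cases hyx : y = x
        · simp only [hyx, if_true]; omega
        · simp only [if_neg hyx]; omega
      · rw [sum_insert hx, sum_singleton, if_pos rfl, if_neg (Ne.symm hxz), a5]

theorem avoidC_outer {k m : ℕ} (hk : 3 ≤ k) (hkq : k + 2 ≤ Fintype.card F)
    (hm : m ≤ (k - 1) * Fintype.card F + 1) : AvoidC F k m := by
  set q := Fintype.card F with hq
  obtain ⟨X, hX⟩ : ∃ X : Finset F, X.card = k - 1 := by
    obtain ⟨X, _, hX⟩ := Finset.exists_subset_card_eq (s := (univ : Finset F)) (n := k - 1)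
      (by rw [card_univ]; omega)
    exact ⟨X, hX⟩
  by_cases hm1 : m = (k - 1) * q + 1
  · -- full lines with the vertical point
    refine ⟨X ×ˢ univ, ∅, 1, le_rfl, ?_, ?_, ?_, ?_⟩
    · rw [card_product, hX, card_univ, hm1, card_empty, add_zero, ← hq]
    · intro a b
      simp only [mem_product, mem_univ, and_true, notMem_empty, if_false, add_zero,
        Finset.filter_mem_eq_inter, univ_inter, hX]
      omega
    · intro x
      by_cases hx : x ∈ X
      · simp only [mem_product, hx, mem_univ, and_true, Finset.filter_true, card_univ]
        omega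
      · simp only [mem_product, hx, mem_univ, and_true, Finset.filter_false, card_empty]
        omega
    · simp; omega
  · obtain ⟨s, hs, hsum⟩ := exists_sizes (F := F) q k (by omega) hkq X (by omega) m (by
      rw [hX]; omega)
    have hR : ∀ x : F, ∃ R : Finset F, x ∈ X → R.card = s x := by
      intro x
      by_cases hx : x ∈ X
      · obtain ⟨R, _, hR⟩ := Finset.exists_subset_card_eq (s := (univ : Finset F)) (n := s x)
          (by rw [card_univ]; exact (hs x hx).1)
        exact ⟨R, fun _ => hR⟩
      · exact ⟨∅, fun h => absurd h hx⟩
    choose R hR using hR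
    refine ⟨X.biUnion (fun x => {x} ×ˢ R x), ∅, 0, by omega, ?_, ?_, ?_, ?_⟩
    · rw [card_biUnion]
      · simp only [card_empty, add_zero, card_product, card_singleton, one_mul]
        rw [← hsum]
        apply sum_congr rfl
        intro x hx
        exact hR x hx
      · intro x _ y _ hxy
        rw [Function.onFun, disjoint_left]
        rintro ⟨u, v⟩ h1 h2
        rw [mem_product, mem_singleton] at h1 h2
        exact hxy (h1.1.symm.trans h2.1)
    · intro a b
      have : (univ.filter (fun x : F => (x, a * x + b) ∈ X.biUnion (fun x => {x} ×ˢ R x))).card ≤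
          X.card := by
        apply card_le_card
        intro x hx
        rw [mem_filter, mem_biUnion] at hx
        obtain ⟨_, y, hy, hxy⟩ := hx
        rw [mem_product, mem_singleton] at hxy
        rw [show x = y from hxy.1]; exact hy
      simp only [notMem_empty, if_false, add_zero]
      omega
    · intro x
      rw [add_zero]
      by_cases hx : x ∈ X
      · have : univ.filter (fun y : F => (x, y) ∈ X.biUnion (fun x => {x} ×ˢ R x)) = R x := by
          ext y
          simp [hx]
        rw [this, hR x hx]
        exact (hs x hx).2
      · have : univ.filter (fun y : F => (x, y) ∈ X.biUnion (fun x => {x} ×ˢ R x)) = ∅ := by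
          ext y
          simp [hx]
        rw [this, card_empty]; omega
    · simp; omega

/-- if the window is fine for `k` up to the middle, then everything is fine -/
theorem avoidC_all {K : ℕ} (hK : 3 ≤ K)
    (hwin : ∀ k m : ℕ, K ≤ k → 2 * k ≤ Fintype.card F + 1 →
      (k - 1) * Fintype.card F ≤ m → m ≤ (k + 1) * Fintype.card F → AvoidC F k m)
    {k m : ℕ} (h1 : K ≤ k) (h2 : k + K ≤ Fintype.card F + 1)
    (hm : m ≤ Fintype.card F ^ 2 + Fintype.card F + 1) : AvoidC F k m := by
  set q := Fintype.card F with hq
  have half : ∀ k m : ℕ, K ≤ k → k + K ≤ q + 1 → 2 * k ≤ q + 1 → m ≤ q ^ 2 + q + 1 →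
      AvoidC F k m := by
    intro k m h1 h2 h3 hm
    by_cases c1 : m ≤ (k - 1) * q + 1
    · exact avoidC_outer (by omega) (by omega) c1
    · by_cases c2 : m ≤ (k + 1) * q
      · exact hwin k m h1 h3 (by omega) c2
      · have hout : AvoidC F (q + 1 - k) (q ^ 2 + q + 1 - m) := by
          apply avoidC_outer (by omega) (by omega)
          have e : (q + 1 - k - 1) * q + (k + 1) * q = q ^ 2 + q := by
            have : q + 1 - k - 1 + (k + 1) = q + 1 := by omega
            rw [← add_mul, this]; ring
          rw [← hq]
          omega
        have := hout.compl (by omega)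
        rw [← hq] at this
        have e1 : q + 1 - (q + 1 - k) = k := by omega
        have e2 : q ^ 2 + q + 1 - (q ^ 2 + q + 1 - m) = m := by omega
        rwa [e1, e2] at this
  by_cases c : 2 * k ≤ q + 1
  · exact half k m h1 h2 c hm
  · have := (half (q + 1 - k) (q ^ 2 + q + 1 - m) (by omega) (by omega) (by omega)
      (by omega)).compl (by omega)
    rw [← hq] at this
    have e1 : q + 1 - (q + 1 - k) = k := by omega
    have e2 : q ^ 2 + q + 1 - (q ^ 2 + q + 1 - m) = m := by omega
    rwa [e1, e2] at this

end KAvoid
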