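import Pool.Agent.KAvoid.OddStruct
import Pool.Agent.KAvoid.Outer

set_option autoImplicit false

namespace KAvoid

open Finset

variable {F : Type} [Field F] [Fintype F] [DecidableEq F]

/-- the number of points on a nonvertical line is not `k` -/
lemma line_ne {h : ℕ} (hh : 100 ≤ h) {L V U A0 : Finset F}
    {Ed : Finset (F × F)} (hL : L.card = 5) (hL0 : ∀ l ∈ L, ss L l = 0)
    (hV : V.card = 2 * h) (hVU : V ⊆ U)
    (hEdsub : ∀ e ∈ Ed, e.1 ∈ L ∧ e.2 ∈ U) (hEdcard : Ed.card ≤ 10 * h + 2)
    (hH1 : ∀ a b, (hitS (L ×ˢ V) a b).card ≤ (hitS Ed a b).card ∧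
      (hitS Ed a b).card ≤ (hitS (L ×ˢ V) a b).card + 2)
    (hH2 : ∀ a b, a ∉ L → b ∉ U → ((hitS Ed a b).card + (if a ∈ A0 then 1 else 0)) % 2 =
      (hitS (L ×ˢ V) a b).card % 2)
    {k t : ℕ} (hk1 : t + 5 * h ≤ k) (hk2 : k ≤ t + 5 * h + 3)
    (hq : 40 * h + 100 ≤ Fintype.card F) (hsq : 2 * (sq1 F).card + 1 = Fintype.card F)
    (a b : F) (eB eA : ℕ) (heB : eB ≤ 1) (heA : eA ≤ 1)
    (hA : a ∉ L → eA = if a ∈ A0 then 1 else 0)
    (hB : (64 ≤ |EE V b| ∧ RG U b) ∨
      (b ∉ U ∧ (eB = 1 ↔ 2 ∣ ((k : ℤ) - (t + 5 * h) - EE V b / 2)))) :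
    t + (eB + (nuS Ed a b).card) + eA ≠ k := by
  by_cases hab : (a, b) ∈ Ed
  · have := nu_structure_line hab
    omega
  · have hnu := hit_eq_nu_add hab
    have h1 := hH1 a b
    have htwo := two_hit_product L V a b
    set hm := (hitS (L ×ˢ V) a b).card with hhm
    set ht := (hitS Ed a b).card with hht
    set nu := (nuS Ed a b).card with hhnu
    have hVe : (V.erase b).card ≤ 2 * h ∧ 2 * h ≤ (V.erase b).card + 1 := by
      rw [card_erase_eq_ite, hV]
      split_ifs <;> omega
    by_cases ha : a ∈ L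
    · rw [hL0 a ha, mul_zero, add_zero, card_erase_of_mem ha, hL] at htwo
      push_cast at htwo
      omega
    · have hLe : (L.erase a).card = 5 := by rw [erase_eq_of_notMem ha, hL]
      obtain ⟨z, hz⟩ := ss_parity ha
      rw [hL] at hz
      rw [hLe, hz] at htwo
      rcases hB with ⟨hE, hRG⟩ | ⟨hbU, hbB⟩
      · -- large column sum
        have h25 := hit_le_nu_add hab hEdsub hRG
        rw [hL] at h25
        have hprod : 64 ≤ |EE V b * (((5 : ℕ) : ℤ) + 2 * z)| := by
          rw [abs_mul]
          have : 1 ≤ |((5 : ℕ) : ℤ) + 2 * z| := by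
            apply Int.one_le_abs
            push_cast
            omega
          nlinarith [abs_nonneg (EE V b)]
        set w := EE V b * (((5 : ℕ) : ℤ) + 2 * z) with hw
        rcases le_abs.mp hprod with hpos | hneg
        · push_cast at htwo
          omega
        · push_cast at htwo
          omega
      · -- parity
        have hbV : b ∉ V := fun hb => hbU (hVU hb)
        have hVe' : (V.erase b).card = 2 * h := by rw [erase_eq_of_notMem hbV, hV]
        obtain ⟨y, hy⟩ := EE_parity hbV
        rw [hV] at hy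
        have hpar := hH2 a b ha hbU
        rw [← hA ha, ← hht, ← hhm] at hpar
        rw [hVe', hy] at htwo
        push_cast at htwo hy
        -- `hm = 5 h + (h + y) (5 + 2 z)`
        have e0 : 2 * (hm : ℤ) = 2 * (5 * h + (h + y) + 2 * ((h + y) * (2 + z))) := by
          rw [htwo]; ring
        have e1 : (hm : ℤ) = 5 * h + (h + y) + 2 * ((h + y) * (2 + z)) :=
          mul_left_cancel₀ (by norm_num) e0
        have e2 : EE V b / 2 = h + y := by rw [hy]; omega
        rw [e2] at hbB
        set w := (h + y) * (2 + z) with hw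
        intro hcon
        by_cases hb1 : eB = 1
        · have := hbB.mp hb1
          omega
        · have : ¬ (2 ∣ ((k : ℤ) - (t + 5 * h) - (h + y))) := fun hd => hb1 (hbB.mpr hd)
          omega

theorem odd_core (hF : ringChar F ≠ 2) {h : ℕ} (hh : 100 ≤ h) {L V U A0 Fo : Finset F}
    {Ed : Finset (F × F)} {l1 : F} (hL : L.card = 5) (hL0 : ∀ l ∈ L, ss L l = 0)
    (hV : V.card = 2 * h) (hVU : V ⊆ U)
    (hEdsub : ∀ e ∈ Ed, e.1 ∈ L ∧ e.2 ∈ U) (hEdcard : Ed.card ≤ 10 * h + 2)
    (hH1 : ∀ a b, (hitS (L ×ˢ V) a b).card ≤ (hitS Ed a b).card ∧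
      (hitS Ed a b).card ≤ (hitS (L ×ˢ V) a b).card + 2)
    (hH2 : ∀ a b, a ∉ L → b ∉ U → ((hitS Ed a b).card + (if a ∈ A0 then 1 else 0)) % 2 =
      (hitS (L ×ˢ V) a b).card % 2)
    (hl1 : l1 ∈ L) (hl1A : l1 ∉ A0)
    (hFo : ∀ b, (64 ≤ |EE V b| ∧ RG U b) ∨ (b ∈ Fo ∧ b ∉ U))
    {k m t M : ℕ} (hk1 : t + 5 * h ≤ k) (hk2 : k ≤ t + 5 * h + 3) (hk3 : 10 * h + 3 < k)
    (hk4 : 2 * k ≤ Fintype.card F + 1)
    (hq : 40 * h + 100 ≤ Fintype.card F)
    (hM : t * Fintype.card F + (Pst Ed).card + A0.card + M = m)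
    (hM1 : Fo.card + 2 ≤ M) (hM2 : M + Fo.card ≤ Fintype.card F) : AvoidC F k m := by
  obtain ⟨hsq, hnsq⟩ := card_ch_pos hF
  have hsq' : 2 * (sq1 F).card + 1 = Fintype.card F := hsq
  obtain ⟨T, hTsub, hTcard⟩ := Finset.exists_subset_card_eq
    (s := univ.filter (fun x : F => ch x = -1)) (n := t) (by omega)
  have hTch : ∀ x ∈ T, ch x = -1 := fun x hx => (mem_filter.mp (hTsub hx)).2
  -- the slopes
  obtain ⟨A, hAcard, hAmem⟩ : ∃ A : Finset F, A.card = A0.card + (if M = k then 1 else 0) ∧
      ∀ a, a ∉ L → (a ∈ A ↔ a ∈ A0) := by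
    by_cases hMk : M = k
    · refine ⟨insert l1 A0, ?_, ?_⟩
      · rw [card_insert_of_notMem hl1A, if_pos hMk]
      · intro a ha
        rw [mem_insert]
        constructor
        · rintro (rfl | h')
          · exact absurd hl1 ha
          · exact h'
        · exact fun h' => Or.inr h'
    · exact ⟨A0, by rw [if_neg hMk, add_zero], fun a _ => Iff.rfl⟩
  obtain ⟨o, ho1, hoA⟩ : ∃ o : ℕ, o ≤ 1 ∧ A.card + o ≠ k := by
    by_cases hAk : A.card = k
    · exact ⟨1, le_rfl, by omega⟩
    · exact ⟨0, by omega, by omega⟩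
  -- the set B
  set om := (if M = k then 1 else 0) with hom
  have hom1 : om ≤ 1 := by rw [hom]; split_ifs <;> omega
  set S1 := Fo.filter (fun b => (2 : ℤ) ∣ ((k : ℤ) - (t + 5 * h) - EE V b / 2)) with hS1
  set S2 := univ \ (Fo.filter (fun b => ¬ ((2 : ℤ) ∣ ((k : ℤ) - (t + 5 * h) - EE V b / 2)))) with hS2
  have hS12 : S1 ⊆ S2 := by
    intro b hb
    rw [hS1, mem_filter] at hb
    rw [hS2, mem_sdiff, mem_filter]
    exact ⟨mem_univ _, fun h' => h'.2 hb.2⟩
  have hS1c : S1.card ≤ Fo.card := card_filter_le _ _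
  have hS2c : Fintype.card F ≤ S2.card + Fo.card := by
    have h1 : S2.card + (Fo.filter (fun b =>
        ¬ ((2 : ℤ) ∣ ((k : ℤ) - (t + 5 * h) - EE V b / 2)))).card = Fintype.card F := by
      rw [hS2, card_sdiff_add_card_eq_card (subset_univ _), card_univ]
    have h2 : (Fo.filter (fun b =>
        ¬ ((2 : ℤ) ∣ ((k : ℤ) - (t + 5 * h) - EE V b / 2)))).card ≤ Fo.card := card_filter_le _ _
    omega
  obtain ⟨B, hB1, hB2, hBcard⟩ := Finset.exists_subsuperset_card_eq hS12
    (n := M - om - o) (by omega) (by omega)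
  have hBdef : ∀ b ∈ Fo, (b ∈ B ↔ (2 : ℤ) ∣ ((k : ℤ) - (t + 5 * h) - EE V b / 2)) := by
    intro b hb
    constructor
    · intro hbB
      have := hB2 hbB
      rw [hS2, mem_sdiff, mem_filter] at this
      by_contra hcon
      exact this.2 ⟨hb, hcon⟩
    · intro hd
      apply hB1
      rw [hS1, mem_filter]
      exact ⟨hb, hd⟩
  have h0ch : ch (0 : F) = 0 := ch_zero
  have h0T : (0 : F) ∉ T := by
    intro h'
    have := hTch 0 h'
    rw [h0ch] at this; exact absurd this (by norm_num)
  have h0s : (0 : F) ∉ sq1 F := by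
    rw [mem_sq1, h0ch]; norm_num
  have hTs : ∀ x ∈ T, x ∉ sq1 F := by
    intro x hx
    rw [mem_sq1, hTch x hx]; norm_num
  refine ⟨(T ×ˢ univ) ∪ (({0} ×ˢ B) ∪ Pst Ed), A, o, ho1, ?_, ?_, ?_, hoA⟩
  · rw [card_union_of_disjoint, card_union_of_disjoint]
    · rw [card_product, card_product, card_univ, card_singleton, hTcard, hBcard, hAcard, one_mul]
      omega
    · rw [disjoint_left]
      rintro ⟨x, y⟩ h1 h2
      rw [mem_product, mem_singleton] at h1
      rw [mem_Pst] at h2
      have hx : x = 0 := h1.1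
      rw [hx] at h2
      exact h0s h2.1
    · rw [disjoint_left]
      rintro ⟨x, y⟩ h1 h2
      rw [mem_product] at h1
      rw [mem_union, mem_product, mem_singleton, mem_Pst] at h2
      rcases h2 with h2 | h2
      · have hx : x = 0 := h2.1
        have h3 : x ∈ T := h1.1
        rw [hx] at h3
        exact h0T h3
      · exact hTs x h1.1 h2.1
  · intro a b
    have hsplit : (univ.filter (fun x : F => (x, a * x + b) ∈
        (T ×ˢ univ) ∪ (({0} ×ˢ B) ∪ Pst Ed))) =
        T ∪ ((if b ∈ B then {0} else ∅) ∪ nuS Ed a b) := by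
      ext x
      rw [mem_filter, mem_union, mem_union, mem_union, mem_union, mem_product, mem_product,
        mem_Pst, mem_singleton]
      unfold nuS
      rw [mem_filter]
      have : (x = 0 ∧ a * x + b ∈ B) ↔ x ∈ (if b ∈ B then ({0} : Finset F) else ∅) := by
        split_ifs with hb
        · rw [mem_singleton]
          constructor
          · exact fun h' => h'.1
          · rintro rfl
            rw [mul_zero, zero_add]
            exact ⟨rfl, hb⟩
        · constructor
          · rintro ⟨rfl, h'⟩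
            rw [mul_zero, zero_add] at h'
            exact absurd h' hb
          · intro h'; simp at h'
      simp only [mem_univ, true_and, and_true]
      rw [this]
    have hdis1 : Disjoint (if b ∈ B then ({0} : Finset F) else ∅) (nuS Ed a b) := by
      split_ifs
      · rw [disjoint_singleton_left]
        intro h'
        unfold nuS at h'
        rw [mem_filter] at h'
        exact h0s h'.1
      · exact disjoint_empty_left _
    have hdis2 : Disjoint T ((if b ∈ B then ({0} : Finset F) else ∅) ∪ nuS Ed a b) := by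
      rw [disjoint_left]
      intro x hx h'
      rw [mem_union] at h'
      rcases h' with h' | h'
      · split_ifs at h' with hb
        · rw [mem_singleton] at h'
          rw [h'] at hx
          exact h0T hx
        · simp at h'
      · unfold nuS at h'
        rw [mem_filter] at h'
        exact hTs x hx h'.1
    rw [hsplit, card_union_of_disjoint hdis2, card_union_of_disjoint hdis1, hTcard]
    have hcB : (if b ∈ B then ({0} : Finset F) else ∅).card = if b ∈ B then 1 else 0 := by
      split_ifs <;> simp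
    rw [hcB]
    refine line_ne hh hL hL0 hV hVU hEdsub hEdcard hH1 hH2 hk1 hk2 hq hsq' a b _ _ ?_ ?_ ?_ ?_
    · split_ifs <;> omega
    · split_ifs <;> omega
    · intro ha
      simp only [hAmem a ha]
    · rcases hFo b with h' | ⟨h1, h2⟩
      · exact Or.inl h'
      · right
        refine ⟨h2, ?_⟩
        rw [← hBdef b h1]
        split_ifs with hb
        · simp [hb]
        · simp [hb]
  · intro x
    by_cases hxT : x ∈ T
    · have : univ.filter (fun y : F => (x, y) ∈ (T ×ˢ univ) ∪ (({0} ×ˢ B) ∪ Pst Ed)) = univ := by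
        apply filter_true_of_mem
        intro y _
        rw [mem_union, mem_product]
        exact Or.inl ⟨hxT, mem_univ _⟩
      rw [this, card_univ]
      omega
    · by_cases hx0 : x = 0
      · subst hx0
        have : univ.filter (fun y : F => ((0 : F), y) ∈ (T ×ˢ univ) ∪ (({0} ×ˢ B) ∪ Pst Ed)) =
            B := by
          ext y
          rw [mem_filter, mem_union, mem_union, mem_product, mem_product, mem_Pst, mem_singleton]
          simp [h0T, h0s]
        rw [this, hBcard]
        rw [hom]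
        split_ifs <;> omega
      · have hsub : univ.filter (fun y : F => (x, y) ∈ (T ×ˢ univ) ∪ (({0} ×ˢ B) ∪ Pst Ed)) ⊆
            univ.filter (fun y : F => (x, y) ∈ Pst Ed) := by
          intro y hy
          rw [mem_filter, mem_union, mem_union, mem_product, mem_product, mem_singleton] at hy
          rw [mem_filter]
          refine ⟨mem_univ _, ?_⟩
          rcases hy.2 with h' | h' | h'
          · exact absurd h'.1 hxT
          · exact absurd h'.1 hx0
          · exact h'
        have h1 := card_le_card hsub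
        have h2 := Pst_column Ed x
        omega

end KAvoid
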