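import Pool.Agent.KAvoid.Data

set_option autoImplicit false

namespace KAvoid

open Finset

variable {F : Type} [Field F] [Fintype F] [DecidableEq F]

/-- the structure lines through a point -/
def thru (Ed : Finset (F × F)) (x y : F) : Finset (F × F) :=
  Ed.filter (fun e => y = e.1 * x + e.2)

/-- the structure lines that meet `y = a x + b` above a nonzero square -/
def hitS (Ed : Finset (F × F)) (a b : F) : Finset (F × F) :=
  Ed.filter (fun e => ch ((e.2 - b) * (a - e.1)) = 1)

/-- the nonzero squares -/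
def sq1 (F : Type) [Field F] [Fintype F] [DecidableEq F] : Finset F :=
  univ.filter (fun x : F => ch x = 1)

lemma mem_sq1 {x : F} : x ∈ sq1 F ↔ ch x = 1 := by
  unfold sq1; simp

lemma ne_zero_of_sq1 {x : F} (hx : x ∈ sq1 F) : x ≠ 0 := by
  rw [mem_sq1] at hx
  intro h; rw [h, ch_zero] at hx; exact absurd hx (by norm_num)

/-- the structure points on `y = a x + b` -/
def nuS (Ed : Finset (F × F)) (a b : F) : Finset F :=
  (sq1 F).filter (fun x => Odd (thru Ed x (a * x + b)).card)

omit [Fintype F] [DecidableEq F] in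
lemma slope_ne {a b : F} {e : F × F} {x : F} (hne : e ≠ (a, b)) (h : a * x + b = e.1 * x + e.2) :
    a - e.1 ≠ 0 := by
  intro h0
  apply hne
  have h1 : a = e.1 := sub_eq_zero.mp h0
  rw [← h1] at h
  have h2 : b = e.2 := add_left_cancel h
  exact Prod.ext h1.symm h2.symm

omit [Fintype F] [DecidableEq F] in
lemma slope_eq {a b : F} {e : F × F} {x : F} (hne : a - e.1 ≠ 0)
    (h : a * x + b = e.1 * x + e.2) : (e.2 - b) * (a - e.1)⁻¹ = x := by
  field_simp
  linear_combination -h

lemma hit_eq_sum {Ed : Finset (F × F)} {a b : F} (hab : (a, b) ∉ Ed) :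
    (hitS Ed a b).card = ∑ x ∈ sq1 F, (thru Ed x (a * x + b)).card := by
  rw [card_eq_sum_card_fiberwise (f := fun e : F × F => (e.2 - b) * (a - e.1)⁻¹) (t := sq1 F)]
  · apply sum_congr rfl
    intro x hx
    congr 1
    ext e
    unfold hitS thru
    rw [mem_filter, mem_filter, mem_filter]
    constructor
    · rintro ⟨⟨he, hch⟩, hx'⟩
      refine ⟨he, ?_⟩
      have hne : a - e.1 ≠ 0 := by
        intro h0
        rw [h0, mul_zero, ch_zero] at hch
        exact absurd hch (by norm_num)
      rw [← hx']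
      field_simp
      ring
    · rintro ⟨he, hl⟩
      have hne : a - e.1 ≠ 0 := slope_ne (fun h => hab (h ▸ he)) hl
      have hx' := slope_eq hne hl
      refine ⟨⟨he, ?_⟩, hx'⟩
      have h1 : (e.2 - b) * (a - e.1) = x * ((a - e.1) * (a - e.1)) := by
        linear_combination (-(a - e.1)) * hl
      rw [h1, ch_mul, ch_mul, ch_mul_self hne, mem_sq1.mp hx]
      rfl
  · intro e he
    rw [mem_coe] at he ⊢
    unfold hitS at he
    rw [mem_filter] at he
    rw [mem_sq1, ch_mul, ch_inv, ← ch_mul]
    exact he.2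

lemma odd_half (m : ℕ) : m = (if Odd m then 1 else 0) + 2 * (m / 2) := by
  split_ifs with h
  · rw [Nat.odd_iff] at h; omega
  · rw [Nat.odd_iff] at h; omega

lemma half_le_offDiag {α : Type} [DecidableEq α] (s : Finset α) :
    2 * (s.card / 2) ≤ s.offDiag.card := by
  rw [offDiag_card]
  rcases Nat.lt_or_ge s.card 2 with h | h
  · interval_cases s.card <;> simp
  · have : s.card * 2 ≤ s.card * s.card := Nat.mul_le_mul_left _ h
    omega

lemma hit_eq_nu_add {Ed : Finset (F × F)} {a b : F} (hab : (a, b) ∉ Ed) :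
    (hitS Ed a b).card = (nuS Ed a b).card +
      2 * ∑ x ∈ sq1 F, (thru Ed x (a * x + b)).card / 2 := by
  rw [hit_eq_sum hab, nuS, card_filter, mul_sum, ← sum_add_distrib]
  apply sum_congr rfl
  intro x _
  exact odd_half _

lemma coincid_le {Ed : Finset (F × F)} {L U : Finset F} {a b : F} (hab : (a, b) ∉ Ed)
    (hEd : ∀ e ∈ Ed, e.1 ∈ L ∧ e.2 ∈ U) (hRG : RG U b) :
    ∑ x ∈ sq1 F, (thru Ed x (a * x + b)).offDiag.card ≤ L.card * L.card := by
  rw [← card_sigma, ← card_product]
  apply card_le_card_of_injOn (fun p => (p.2.1.1, p.2.2.1))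
  · intro p hp
    rw [mem_coe, mem_sigma, mem_offDiag] at hp
    unfold thru at hp
    rw [mem_filter, mem_filter] at hp
    rw [mem_coe, mem_product]
    exact ⟨(hEd _ hp.2.1.1).1, (hEd _ hp.2.2.1.1).1⟩
  · rintro ⟨x, ⟨l, c⟩, ⟨l', c'⟩⟩ hp ⟨y, ⟨m, d⟩, ⟨m', d'⟩⟩ hp' heq
    rw [mem_coe, mem_sigma, mem_offDiag] at hp hp'
    unfold thru at hp hp'
    simp only [mem_filter] at hp hp'
    simp only [Prod.mk.injEq] at heq
    obtain ⟨rfl, rfl⟩ := heq
    obtain ⟨hx, ⟨he1, hl1⟩, ⟨he2, hl2⟩, hne⟩ := hp
    obtain ⟨hy, ⟨hf1, hm1⟩, ⟨hf2, hm2⟩, hne'⟩ := hp'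
    have hx0 := ne_zero_of_sq1 hx
    have hy0 := ne_zero_of_sq1 hy
    have hll : l ≠ l' := by
      intro h
      apply hne
      rw [← h] at hl2
      have : c = c' := by
        have := hl1.symm.trans hl2
        exact add_left_cancel this
      rw [h, this]
    have e1 : (a - l) * x = c - b := by linear_combination hl1
    have e2 : (a - l') * x = c' - b := by linear_combination hl2
    have f1 : (a - l) * y = d - b := by linear_combination hm1
    have f2 : (a - l') * y = d' - b := by linear_combination hm2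
    have hcc : c ≠ c' := by
      intro h
      apply hll
      have : (l' - l) * x = 0 := by linear_combination e1 - e2 + h
      rcases mul_eq_zero.mp this with h' | h'
      · exact (sub_eq_zero.mp h').symm
      · exact absurd h' hx0
    have al : a - l ≠ 0 := slope_ne (e := (l, c)) (fun h => hab (h ▸ he1)) hl1
    have al' : a - l' ≠ 0 := slope_ne (e := (l', c')) (fun h => hab (h ▸ he2)) hl2
    have hcb : c ≠ b := by
      intro h; rw [h, sub_self] at e1
      exact (mul_ne_zero al hx0) e1
    have hcb' : c' ≠ b := by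
      intro h; rw [h, sub_self] at e2
      exact (mul_ne_zero al' hx0) e2
    have hdb : d ≠ b := by
      intro h; rw [h, sub_self] at f1
      exact (mul_ne_zero al hy0) f1
    have hdb' : d' ≠ b := by
      intro h; rw [h, sub_self] at f2
      exact (mul_ne_zero al' hy0) f2
    have key : (c - b) * (d' - b) = (d - b) * (c' - b) := by
      rw [← e1, ← e2, ← f1, ← f2]; ring
    obtain ⟨rfl, rfl⟩ := hRG c (hEd _ he1).2 c' (hEd _ he2).2 d (hEd _ hf1).2 d' (hEd _ hf2).2
      hcb hcb' hdb hdb' hcc key
    have hxy : x = y := by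
      have : (a - l) * x = (a - l) * y := e1.trans f1.symm
      exact mul_left_cancel₀ al this
    rw [hxy]

lemma hit_le_nu_add {Ed : Finset (F × F)} {L U : Finset F} {a b : F} (hab : (a, b) ∉ Ed)
    (hEd : ∀ e ∈ Ed, e.1 ∈ L ∧ e.2 ∈ U) (hRG : RG U b) :
    (hitS Ed a b).card ≤ (nuS Ed a b).card + L.card * L.card := by
  rw [hit_eq_nu_add hab]
  refine Nat.add_le_add_left ?_ _
  refine le_trans ?_ (coincid_le hab hEd hRG)
  rw [mul_sum]
  exact sum_le_sum (fun x _ => half_le_offDiag _)

/-- a structure line carries many structure points -/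
lemma nu_structure_line {Ed : Finset (F × F)} {a b : F} (hab : (a, b) ∈ Ed) :
    (sq1 F).card ≤ (nuS Ed a b).card + Ed.card := by
  have hsub : sq1 F ⊆ nuS Ed a b ∪ Ed.image (fun e => (e.2 - b) * (a - e.1)⁻¹) := by
    intro x hx
    rw [mem_union]
    by_cases h : ∃ e ∈ Ed, e ≠ (a, b) ∧ a * x + b = e.1 * x + e.2
    · obtain ⟨e, he, hne, hl⟩ := h
      right
      rw [mem_image]
      exact ⟨e, he, slope_eq (slope_ne hne hl) hl⟩
    · left
      push Not at h
      unfold nuS
      rw [mem_filter]
      refine ⟨hx, ?_⟩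
      have : thru Ed x (a * x + b) = {(a, b)} := by
        ext e
        unfold thru
        rw [mem_filter, mem_singleton]
        constructor
        · rintro ⟨he, hl⟩
          by_contra hne
          exact h e he hne hl
        · rintro rfl
          exact ⟨hab, rfl⟩
      rw [this, card_singleton]
      exact odd_one
  refine (card_le_card hsub).trans ((card_union_le _ _).trans ?_)
  exact Nat.add_le_add_left card_image_le _

/-- the structure points -/
def Pst (Ed : Finset (F × F)) : Finset (F × F) :=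
  (sq1 F ×ˢ (univ : Finset F)).filter (fun p => Odd (thru Ed p.1 p.2).card)

lemma sum_thru (Ed : Finset (F × F)) (x : F) :
    ∑ y : F, (thru Ed x y).card = Ed.card := by
  rw [card_eq_sum_card_fiberwise (s := Ed) (f := fun e : F × F => e.1 * x + e.2) (t := univ)]
  · apply sum_congr rfl
    intro y _
    congr 1
    ext e
    unfold thru
    rw [mem_filter, mem_filter]
    constructor
    · rintro ⟨h1, h2⟩; exact ⟨h1, h2.symm⟩
    · rintro ⟨h1, h2⟩; exact ⟨h1, h2.symm⟩
  · intro e _
    simp

lemma Pst_card_eq (Ed : Finset (F × F)) :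
    Ed.card * (sq1 F).card = (Pst Ed).card +
      ∑ x ∈ sq1 F, ∑ y : F, 2 * ((thru Ed x y).card / 2) := by
  have h1 : (Pst Ed).card = ∑ x ∈ sq1 F, ∑ y : F, (if Odd (thru Ed x y).card then 1 else 0) := by
    unfold Pst
    rw [card_filter, sum_product]
  rw [h1, ← sum_add_distrib]
  have h2 : Ed.card * (sq1 F).card = ∑ x ∈ sq1 F, Ed.card := by
    rw [sum_const, smul_eq_mul, mul_comm]
  rw [h2]
  apply sum_congr rfl
  intro x _
  rw [← sum_add_distrib, ← sum_thru Ed x]
  apply sum_congr rfl
  intro y _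
  exact odd_half _

lemma Pst_card_le (Ed : Finset (F × F)) : (Pst Ed).card ≤ Ed.card * (sq1 F).card := by
  rw [Pst_card_eq Ed]; omega

lemma le_Pst_card (Ed : Finset (F × F)) :
    Ed.card * (sq1 F).card ≤ (Pst Ed).card + Ed.card * Ed.card := by
  rw [Pst_card_eq Ed]
  refine Nat.add_le_add_left ?_ _
  calc ∑ x ∈ sq1 F, ∑ y : F, 2 * ((thru Ed x y).card / 2)
      ≤ ∑ x ∈ sq1 F, ∑ y : F, (thru Ed x y).offDiag.card :=
        sum_le_sum (fun x _ => sum_le_sum (fun y _ => half_le_offDiag _))
    _ = ∑ p ∈ sq1 F ×ˢ (univ : Finset F), (thru Ed p.1 p.2).offDiag.card := by rw [sum_product]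
    _ = ((sq1 F ×ˢ (univ : Finset F)).sigma (fun p => (thru Ed p.1 p.2).offDiag)).card := by
        rw [card_sigma]
    _ ≤ (Ed ×ˢ Ed).card := by
        apply card_le_card_of_injOn (fun p => p.2)
        · intro p hp
          rw [mem_coe, mem_sigma, mem_offDiag] at hp
          unfold thru at hp
          rw [mem_filter, mem_filter] at hp
          rw [mem_coe, mem_product]
          exact ⟨hp.2.1.1, hp.2.2.1.1⟩
        · rintro ⟨⟨x, y⟩, ⟨l, c⟩, ⟨l', c'⟩⟩ hp ⟨⟨x', y'⟩, ⟨m, d⟩, ⟨m', d'⟩⟩ hp' heq
          rw [mem_coe, mem_sigma, mem_offDiag] at hp hp'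
          unfold thru at hp hp'
          simp only [mem_filter] at hp hp'
          simp only [Prod.mk.injEq] at heq
          obtain ⟨⟨rfl, rfl⟩, rfl, rfl⟩ := heq
          obtain ⟨_, ⟨he1, hl1⟩, ⟨he2, hl2⟩, hne⟩ := hp
          obtain ⟨_, ⟨_, hm1⟩, ⟨_, hm2⟩, _⟩ := hp'
          have hll : l - l' ≠ 0 := by
            intro h
            apply hne
            have h' : l = l' := sub_eq_zero.mp h
            rw [← h'] at hl2
            have : c = c' := by
              have := hl1.symm.trans hl2
              exact add_left_cancel this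
            rw [h', this]
          have hxx : x = x' := by
            have : (l - l') * x = (l - l') * x' := by
              linear_combination (-1 : F) * hl1 + hl2 + hm1 - hm2
            exact mul_left_cancel₀ hll this
          have hyy : y = y' := by rw [hl1, hm1, hxx]
          rw [hxx, hyy]
    _ = Ed.card * Ed.card := card_product _ _

lemma Pst_column (Ed : Finset (F × F)) (x : F) :
    (univ.filter (fun y : F => (x, y) ∈ Pst Ed)).card ≤ Ed.card := by
  calc (univ.filter (fun y : F => (x, y) ∈ Pst Ed)).card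
      = ∑ y : F, (if (x, y) ∈ Pst Ed then 1 else 0) := by rw [card_filter]
    _ ≤ ∑ y : F, (thru Ed x y).card := by
        apply sum_le_sum
        intro y _
        split_ifs with h
        · unfold Pst at h
          rw [mem_filter] at h
          have h2 : Odd (thru Ed x y).card := h.2
          rw [Nat.odd_iff] at h2
          omega
        · exact Nat.zero_le _
    _ = Ed.card := sum_thru Ed x

lemma mem_Pst {Ed : Finset (F × F)} {x y : F} :
    (x, y) ∈ Pst Ed ↔ x ∈ sq1 F ∧ Odd (thru Ed x y).card := by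
  unfold Pst
  simp

/-! ### the product structure -/

/-- column sum of `V` -/
def EE (V : Finset F) (b : F) : ℤ := ∑ c ∈ V, ch (c - b)

/-- row sum of `L` -/
def ss (L : Finset F) (a : F) : ℤ := ∑ l ∈ L, ch (a - l)

lemma two_hit_product (L V : Finset F) (a b : F) :
    2 * ((hitS (L ×ˢ V) a b).card : ℤ) =
      ((L.erase a).card : ℤ) * ((V.erase b).card : ℤ) + EE V b * ss L a := by
  have h1 : ∀ l c : F, 2 * (if ch ((c - b) * (a - l)) = 1 then (1 : ℤ) else 0) =
      (if l ≠ a then 1 else 0) * (if c ≠ b then 1 else 0) + ch (c - b) * ch (a - l) := by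
    intro l c
    by_cases hl : l = a
    · rw [if_neg (not_not.mpr hl), hl, sub_self, mul_zero, ch_zero, if_neg (by norm_num)]
      simp
    · by_cases hc : c = b
      · rw [if_neg (c := c ≠ b) (not_not.mpr hc), hc, sub_self, zero_mul, ch_zero,
          if_neg (by norm_num)]
        simp
      · rw [if_pos hl, if_pos hc, ch_mul]
        rcases ch_cases (sub_ne_zero.mpr hc) with h | h <;>
          rcases ch_cases (sub_ne_zero.mpr (Ne.symm hl)) with h' | h' <;>
          rw [h, h'] <;> norm_num
  unfold hitS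
  rw [card_filter, sum_product]
  push_cast
  rw [mul_sum]
  simp_rw [mul_sum, h1, sum_add_distrib]
  congr 1
  · rw [← sum_mul_sum]
    congr 1
    · rw [sum_boole]
      congr 2
      ext l
      rw [mem_filter, mem_erase, and_comm]
    · rw [sum_boole]
      congr 2
      ext l
      rw [mem_filter, mem_erase, and_comm]
  · unfold EE ss
    rw [sum_mul_sum, sum_comm]

omit [Field F] [Fintype F] in
lemma parity_sum (V : Finset F) (g : F → ℤ) (hg : ∀ c ∈ V, g c = 1 ∨ g c = -1) :
    ∃ z : ℤ, ∑ c ∈ V, g c = V.card + 2 * z := by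
  induction V using Finset.induction_on with
  | empty => exact ⟨0, by simp⟩
  | insert c V hc ih =>
    obtain ⟨z, hz⟩ := ih (fun x hx => hg x (mem_insert_of_mem hx))
    rw [sum_insert hc, card_insert_of_notMem hc, hz]
    rcases hg c (mem_insert_self c V) with h | h
    · exact ⟨z, by rw [h]; push_cast; ring⟩
    · exact ⟨z - 1, by rw [h]; push_cast; ring⟩

lemma ss_parity {L : Finset F} {a : F} (ha : a ∉ L) : ∃ z : ℤ, ss L a = L.card + 2 * z := by
  apply parity_sum
  intro c hc
  apply ch_cases
  intro h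
  exact ha ((sub_eq_zero.mp h) ▸ hc)

lemma EE_parity {V : Finset F} {b : F} (hb : b ∉ V) : ∃ z : ℤ, EE V b = V.card + 2 * z := by
  apply parity_sum
  intro c hc
  apply ch_cases
  intro h
  exact hb ((sub_eq_zero.mp h) ▸ hc)

end KAvoid
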